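import Pool.Agent.Y294.LR.MultiL
import Pool.Agent.TH818.AP.Api

/-!
# Tuples of rational numbers: the counting theorem
-/

set_option autoImplicit false
set_option linter.unusedSectionVars false

open Filter Topology Set

namespace Pool.Agent.Y294.LR

open Pool.Agent.TH818.AP Pool.Agent.Y890.UC

variable {n : ℕ} {Λ W h : Type} [Fintype W] [DecidableEq W] [Fintype h] [DecidableEq h]

/-- the exceptional tuples -/
def ExcL (a b : Fin n → ℝ) (H : Fin n → Λ → ℝ → ℝ) (ι : W → Λ) (A T : ℝ) (ξ : h → ℂ) : Set (Fin n → ℚ) :=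
  {x | (∀ j, (x j : ℝ) ∈ Icc (a j) (b j) ∧ ((x j).den : ℝ) ≤ T) ∧
    RelE ξ (fun e : Fin n → W => ((∏ j, H j (ι (e j)) (x j) : ℝ) : ℂ)) (T ^ A)}

theorem ExcL_sub (a b : Fin n → ℝ) (H : Fin n → Λ → ℝ → ℝ) (ι : W → Λ) (A T : ℝ) (ξ : h → ℂ) :
    ExcL a b H ι A T ξ ⊆ (Fintype.piFinset fun j : Fin n => RT (a j) (b j) T : Finset (Fin n → ℚ)) := by
  intro t ht
  rw [Finset.mem_coe, Fintype.mem_piFinset]
  exact fun j => mem_RT.2 (ht.1 j)

theorem famCount (hn : 1 ≤ n) (a b : Fin n → ℝ) (hab : ∀ j, a j < b j) (H : Fin n → Λ → ℝ → ℝ)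
    (hF : ∀ j, AlgFam (a j) (b j) (H j)) (ι : W → Λ) (hι : Function.Injective ι) (A ε : ℝ) (hε : 0 < ε) :
    ∃ C : ℝ, ∀ T : ℝ, 1 ≤ T → ∀ ξ : h → ℂ, (ExcL a b H ι A T ξ).Finite ∧
      ((ExcL a b H ι A T ξ).ncard : ℝ) ≤ C * T ^ (2 * ((n : ℝ) - 1) + ε) := by
  classical
  obtain ⟨C, T2, hC, hT2, hu⟩ := multiLin (W := W) n (fun j T => RT (a j) (b j) T)
    (fun j (q : ℚ) w => ((H j (ι w) q : ℝ) : ℂ)) (fun j => (hF j).oneLin (hab j) ι hι) h A ε hε
  choose K hK hcard using fun j => card_RT_gen (a j) (b j)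
  set κ : ℝ := ∑ j, K j with hκ
  have hKκ : ∀ j, K j ≤ κ := fun j => Finset.single_le_sum (fun i _ => (hK i).le) (Finset.mem_univ j)
  have hκ0 : 0 < κ := lt_of_lt_of_le (hK ⟨0, hn⟩) (hKκ ⟨0, hn⟩)
  have hcard' : ∀ j, ∀ T : ℝ, 1 ≤ T → ((RT (a j) (b j) T).card : ℝ) ≤ κ * T ^ (2 : ℝ) := fun j T hT =>
    (hcard j T hT).trans (mul_le_mul_of_nonneg_right (hKκ j) (by positivity))
  refine ⟨C * (n * κ ^ (n - 1)) + (κ * T2 ^ (2 : ℝ)) ^ n, fun T hT ξ => ?_⟩
  have hTp : 0 < T := by linarith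
  have hn1 : (1 : ℝ) ≤ n := by exact_mod_cast hn
  have hfin : (ExcL a b H ι A T ξ).Finite := (Finset.finite_toSet _).subset (ExcL_sub a b H ι A T ξ)
  refine ⟨hfin, ?_⟩
  have hone : 1 ≤ T ^ (2 * ((n : ℝ) - 1) + ε) := Real.one_le_rpow hT (by linarith)
  have hc1 : 0 ≤ C * (n * κ ^ (n - 1)) := by positivity
  have hc2 : 0 ≤ (κ * T2 ^ (2 : ℝ)) ^ n := by positivity
  rcases le_or_gt T2 T with hTT | hTT
  · rw [Set.ncard_eq_toFinset_card _ hfin]
    have h1 := hu T hTT ξ hfin.toFinset (by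
      intro x hx
      have h2 := ExcL_sub a b H ι A T ξ (hfin.mem_toFinset.1 hx)
      exact Finset.mem_coe.1 h2) (by
      intro x hx
      have h2 := (hfin.mem_toFinset.1 hx).2
      have h3 : (fun e : Fin n → W => ((∏ j, H j (ι (e j)) (x j) : ℝ) : ℂ)) =
          fun e : Fin n → W => pr (fun j (q : ℚ) w => ((H j (ι w) q : ℝ) : ℂ)) x e := by
        funext e
        rw [pr]
        push_cast
        rfl
      rw [h3] at h2
      exact h2)
    have hMg : Mg (fun (j : Fin n) T => RT (a j) (b j) T) T ≤ n * (κ * T ^ (2 : ℝ)) ^ (n - 1) := by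
      rw [Mg]
      have h2 : ∀ j : Fin n, ∏ i : Fin n, (if i = j then (1 : ℝ) else ((RT (a i) (b i) T).card : ℝ)) ≤
          (κ * T ^ (2 : ℝ)) ^ (n - 1) := by
        intro j
        rw [← Finset.mul_prod_erase _ _ (Finset.mem_univ j), if_pos rfl, one_mul]
        calc ∏ i ∈ Finset.univ.erase j, (if i = j then (1 : ℝ) else ((RT (a i) (b i) T).card : ℝ))
            ≤ ∏ i ∈ Finset.univ.erase j, (κ * T ^ (2 : ℝ)) := by
              refine Finset.prod_le_prod (fun i _ => ?_) fun i hi => ?_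
              · split_ifs
                · exact zero_le_one
                · exact Nat.cast_nonneg _
              · rw [if_neg (Finset.ne_of_mem_erase hi)]
                exact hcard' i T hT
          _ = (κ * T ^ (2 : ℝ)) ^ (n - 1) := by
              rw [Finset.prod_const, Finset.card_erase_of_mem (Finset.mem_univ _), Finset.card_univ,
                Fintype.card_fin]
      refine (Finset.sum_le_sum fun j _ => h2 j).trans (le_of_eq ?_)
      rw [Finset.sum_const, Finset.card_univ, Fintype.card_fin, nsmul_eq_mul]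
    refine h1.trans ((mul_le_mul_of_nonneg_left hMg (by positivity)).trans ?_)
    have h4 : T ^ (2 * ((n : ℝ) - 1) + ε) = (T ^ (2 : ℝ)) ^ (n - 1) * T ^ ε := by
      rw [Real.rpow_add hTp, ← Real.rpow_natCast (T ^ (2 : ℝ)), ← Real.rpow_mul hTp.le, Nat.cast_sub hn, Nat.cast_one]
    rw [h4, mul_pow]
    have h5 : 0 ≤ (T ^ (2 : ℝ)) ^ (n - 1) * T ^ ε := by positivity
    have h6 := mul_nonneg hc2 h5
    calc C * T ^ ε * (n * (κ ^ (n - 1) * (T ^ (2 : ℝ)) ^ (n - 1)))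
        = C * (n * κ ^ (n - 1)) * ((T ^ (2 : ℝ)) ^ (n - 1) * T ^ ε) := by ring
      _ ≤ (C * (n * κ ^ (n - 1)) + (κ * T2 ^ (2 : ℝ)) ^ n) * ((T ^ (2 : ℝ)) ^ (n - 1) * T ^ ε) := by
          rw [add_mul]
          linarith
  · have h1 := Set.ncard_le_ncard (ExcL_sub a b H ι A T ξ) (Finset.finite_toSet _)
    rw [Set.ncard_coe_finset, Fintype.card_piFinset] at h1
    have h2 : ((ExcL a b H ι A T ξ).ncard : ℝ) ≤ ∏ j : Fin n, ((RT (a j) (b j) T).card : ℝ) := by
      exact_mod_cast h1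
    have h3 : ∏ j : Fin n, ((RT (a j) (b j) T).card : ℝ) ≤ (κ * T2 ^ (2 : ℝ)) ^ n := by
      calc ∏ j : Fin n, ((RT (a j) (b j) T).card : ℝ) ≤ ∏ j : Fin n, (κ * T2 ^ (2 : ℝ)) := by
            refine Finset.prod_le_prod (fun j _ => Nat.cast_nonneg _) fun j _ => ?_
            refine (hcard' j T hT).trans (mul_le_mul_of_nonneg_left ?_ hκ0.le)
            exact Real.rpow_le_rpow hTp.le hTT.le (by norm_num)
        _ = _ := by rw [Finset.prod_const, Finset.card_univ, Fintype.card_fin]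
    refine h2.trans (h3.trans ?_)
    nlinarith

end Pool.Agent.Y294.LR
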