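import Mathlib

/-!
# Norm forms

Let `A` be an integral domain over `ℂ` and `y_w` finitely many elements of `A`. There is a subset `B` of the indices such
that the `y_b`, `b ∈ B`, are algebraically independent, and there are matrices `p_w` of polynomials in the `y_b` with a
common eigenvector `α` with the eigenvalues `D y_w`, `D ≠ 0`, such that `det (∑ c_w p_w) ≠ 0` whenever `∑ c_w y_w ≠ 0`.
-/

set_option autoImplicit false

namespace Pool.Agent.Y294.LR

open MvPolynomial
open scoped IntermediateField.algebraAdjoinAdjoin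

/-- a maximal algebraically independent subfamily -/
theorem exists_max {E W : Type} [Field E] [Algebra ℂ E] [Finite W] (y : W → E) :
    ∃ s : Set W, AlgebraicIndependent ℂ (fun b : s => y b) ∧
      ∀ w, IsAlgebraic (Algebra.adjoin ℂ (Set.range fun b : s => y b)) (y w) := by
  classical
  have hfin : {s : Set W | AlgebraicIndepOn ℂ y s}.Finite := Set.toFinite _
  have hne : {s : Set W | AlgebraicIndepOn ℂ y s}.Nonempty := by
    refine ⟨∅, ?_⟩
    show AlgebraicIndependent ℂ (fun b : (∅ : Set W) => y b)
    exact algebraicIndependent_empty_type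
  obtain ⟨s, hs⟩ := hfin.exists_maximal hne
  refine ⟨s, hs.1, fun w => ?_⟩
  by_contra htr
  have h1 : Transcendental (Algebra.adjoin ℂ (y '' s)) (y w) := by
    rw [Set.image_eq_range]
    exact htr
  have h2 := AlgebraicIndepOn.insert hs.1 h1
  have h3 : insert w s ≤ s := hs.2 h2 (Set.subset_insert w s)
  have hw : w ∈ s := h3 (Set.mem_insert w s)
  apply htr
  have h4 : y w = algebraMap (Algebra.adjoin ℂ (Set.range fun b : s => y b)) E
      ⟨y w, Algebra.subset_adjoin ⟨⟨w, hw⟩, rfl⟩⟩ := rfl
  rw [h4]
  exact isAlgebraic_algebraMap _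

/-- the matrices of multiplication -/
theorem matrices_fd {K L W : Type} [Field K] [Field L] [Algebra K L] [FiniteDimensional K L] [Fintype W]
    (z : W → L) :
    ∃ (r : ℕ) (b : Fin r → L) (M : W → Matrix (Fin r) (Fin r) K), (∃ i, b i ≠ 0) ∧
      (∀ w i, z w * b i = ∑ j, algebraMap K L (M w i j) * b j) ∧
      ∀ c : W → K, ∑ w, algebraMap K L (c w) * z w ≠ 0 → Matrix.det (∑ w, c w • M w) ≠ 0 := by
  classical
  set r := Module.finrank K L with hr
  let b : Module.Basis (Fin r) K L := Module.finBasis K L
  refine ⟨r, b, fun w => (Algebra.leftMulMatrix b (z w)).transpose, ?_, ?_, ?_⟩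
  · have hpos : 0 < r := Module.finrank_pos
    exact ⟨⟨0, hpos⟩, b.ne_zero _⟩
  · intro w i
    have h1 := b.sum_repr (z w * b i)
    rw [← h1]
    refine Finset.sum_congr rfl fun j _ => ?_
    show _ = algebraMap K L (Algebra.leftMulMatrix b (z w) j i) * b j
    rw [Algebra.leftMulMatrix_eq_repr_mul, Algebra.smul_def]
  · intro c hc
    have h1 : ∑ w, c w • (Algebra.leftMulMatrix b (z w)).transpose =
        (Algebra.leftMulMatrix b (∑ w, algebraMap K L (c w) * z w)).transpose := by
      rw [map_sum, Matrix.transpose_sum]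
      refine Finset.sum_congr rfl fun w _ => ?_
      rw [← Algebra.smul_def, map_smul, Matrix.transpose_smul]
    rw [h1, Matrix.det_transpose, ← Algebra.norm_eq_matrix_det]
    exact (Algebra.norm_ne_zero_iff_of_basis b).2 hc

/-- the matrices of multiplication -/
theorem matrices {K E W : Type} [Field K] [Field E] [Algebra K E] [Fintype W]
    (y : W → E) (hint : ∀ w, IsIntegral K (y w)) :
    ∃ (r : ℕ) (b : Fin r → E) (M : W → Matrix (Fin r) (Fin r) K), (∃ i, b i ≠ 0) ∧
      (∀ w i, y w * b i = ∑ j, algebraMap K E (M w i j) * b j) ∧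
      ∀ c : W → K, ∑ w, algebraMap K E (c w) * y w ≠ 0 → Matrix.det (∑ w, c w • M w) ≠ 0 := by
  classical
  let L := IntermediateField.adjoin K (Set.range y)
  have hfd : FiniteDimensional K L := IntermediateField.finiteDimensional_adjoin (by
    rintro x ⟨w, rfl⟩
    exact hint w)
  let z : W → L := fun w => ⟨y w, IntermediateField.subset_adjoin K _ ⟨w, rfl⟩⟩
  obtain ⟨r, b, M, hb, hM, hc⟩ := matrices_fd (K := K) z
  refine ⟨r, fun i => (b i : E), M, ?_, ?_, ?_⟩
  · obtain ⟨i, hi⟩ := hb
    exact ⟨i, fun h0 => hi (Subtype.ext h0)⟩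
  · intro w i
    have h1 := congrArg (algebraMap L E) (hM w i)
    rw [map_mul, map_sum] at h1
    refine h1.trans (Finset.sum_congr rfl fun j _ => ?_)
    rw [map_mul, ← IsScalarTower.algebraMap_apply K L E]
    rfl
  · intro c hcc
    apply hc
    intro h0
    apply hcc
    have h1 := congrArg (algebraMap L E) h0
    rw [map_sum, map_zero] at h1
    rw [← h1]
    refine Finset.sum_congr rfl fun w _ => ?_
    rw [map_mul, ← IsScalarTower.algebraMap_apply K L E]
    rfl

/-- determinants and homomorphisms -/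
theorem det_trick {R K W : Type} [CommRing R] [Field K] [Fintype W] {r : ℕ} (φ : R →+* K) (d : K) (hd : d ≠ 0)
    (c' : W → R) (c : W → K) (p : W → Matrix (Fin r) (Fin r) R) (M : W → Matrix (Fin r) (Fin r) K)
    (h1 : ∀ w, φ (c' w) = c w) (h2 : ∀ w i j, φ (p w i j) = d * M w i j)
    (hdet : Matrix.det (∑ w, c w • M w) ≠ 0) : Matrix.det (∑ w, c' w • p w) ≠ 0 := by
  classical
  intro h0
  have h3 := congrArg φ h0
  rw [map_zero, RingHom.map_det] at h3
  have h4 : φ.mapMatrix (∑ w, c' w • p w) = d • ∑ w, c w • M w := by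
    rw [map_sum, Finset.smul_sum]
    refine Finset.sum_congr rfl fun w _ => ?_
    refine Matrix.ext fun i j => ?_
    simp only [RingHom.mapMatrix_apply, Matrix.map_apply, Matrix.smul_apply, smul_eq_mul, map_mul, h1, h2]
    ring
  rw [h4, Matrix.det_smul] at h3
  rcases mul_eq_zero.1 h3 with h5 | h5
  · exact pow_ne_zero _ hd h5
  · exact hdet h5

/-- **Norm forms.** -/
theorem normform {A W : Type} [CommRing A] [IsDomain A] [Algebra ℂ A] [Fintype W] [DecidableEq W] (y : W → A) :
    ∃ (s : Set W) (r : ℕ) (p : W → Matrix (Fin r) (Fin r) (MvPolynomial s ℂ)) (D : MvPolynomial s ℂ)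
      (α : Fin r → A), AlgebraicIndependent ℂ (fun b : s => y b) ∧ (∃ i, α i ≠ 0) ∧
      (∀ w i, aeval (fun b : s => y b) D * y w * α i = ∑ j, aeval (fun b : s => y b) (p w i j) * α j) ∧
      ∀ c : W → ℂ, ∑ w, c w • y w ≠ 0 → Matrix.det (∑ w, (C (c w) : MvPolynomial s ℂ) • p w) ≠ 0 := by
  classical
  let E := FractionRing A
  have hinj : Function.Injective (algebraMap A E) := IsFractionRing.injective A E
  let y' : W → E := fun w => algebraMap A E (y w)
  obtain ⟨s, hs, halg⟩ := exists_max y'
  let S : Set E := Set.range fun b : s => y' b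
  let R0 := Algebra.adjoin ℂ S
  let K := IntermediateField.adjoin ℂ S
  -- the elements are integral over `K`
  have hinjK : Function.Injective (algebraMap R0 K) := FaithfulSMul.algebraMap_injective _ _
  have hint : ∀ w, IsIntegral K (y' w) := fun w => ((halg w).extendScalars hinjK).isIntegral
  obtain ⟨r, b, M, hb, hM, hc⟩ := matrices y' hint
  -- denominators in `K`
  obtain ⟨D0, hD0⟩ := IsLocalization.exist_integer_multiples_of_finite (nonZeroDivisors R0)
    (fun x : W × Fin r × Fin r => M x.1 x.2.1 x.2.2)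
  choose q0 hq0 using hD0
  let e := hs.aevalEquiv
  have he : ∀ P : MvPolynomial s ℂ, ((e P : R0) : E) = aeval (fun b : s => y' b) P := fun P =>
    hs.algebraMap_aevalEquiv P
  have he' : ∀ q : R0, aeval (fun b : s => y' b) (e.symm q) = (q : E) := fun q => by
    rw [← he, AlgEquiv.apply_symm_apply]
  -- denominators of the basis
  obtain ⟨β, hβ⟩ := IsLocalization.exist_integer_multiples_of_finite (nonZeroDivisors A) b
  choose α hα using hβ
  have hβ0 : algebraMap A E β ≠ 0 := by
    intro h0
    exact nonZeroDivisors.ne_zero β.2 (hinj (h0.trans (map_zero _).symm))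
  have hae : ∀ P : MvPolynomial s ℂ, algebraMap A E (aeval (fun b : s => y b) P) =
      aeval (fun b : s => y' b) P := by
    intro P
    exact (MvPolynomial.aeval_algebraMap_apply E (fun b : s => y b) P).symm
  have hα' : ∀ i, algebraMap A E (α i) = algebraMap A E β * b i := fun i => by
    rw [hα i, Algebra.smul_def]
  refine ⟨s, r, fun w => Matrix.of fun i j => e.symm (q0 (w, i, j)), e.symm (D0 : R0), α, ?_, ?_, ?_, ?_⟩
  · rw [algebraicIndependent_iff_injective_aeval]
    intro P Q hPQ
    apply hs
    show aeval (fun b : s => y' b) P = aeval (fun b : s => y' b) Q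
    rw [← hae, ← hae, hPQ]
  · obtain ⟨i, hi⟩ := hb
    refine ⟨i, fun h0 => ?_⟩
    have h1 := hα' i
    rw [h0, map_zero] at h1
    rcases mul_eq_zero.1 h1.symm with h2 | h2
    · exact hβ0 h2
    · exact hi h2
  · intro w i
    apply hinj
    have hq : ∀ x : W × Fin r × Fin r, ((q0 x : R0) : E) = ((D0 : R0) : E) * algebraMap K E (M x.1 x.2.1 x.2.2) := by
      intro x
      have h1 := congrArg (algebraMap K E) (hq0 x)
      rw [Algebra.smul_def, map_mul] at h1
      exact h1
    rw [map_mul, map_mul, hae, he', hα', map_sum]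
    have h2 : ∀ j, algebraMap A E (aeval (fun b : s => y b)
        ((fun w => Matrix.of fun i j => e.symm (q0 (w, i, j))) w i j) * α j) =
        ((D0 : R0) : E) * algebraMap A E β * (algebraMap K E (M w i j) * b j) := by
      intro j
      show algebraMap A E (aeval (fun b : s => y b) (e.symm (q0 (w, i, j))) * α j) = _
      rw [map_mul, hae, he', hα', hq]
      ring
    rw [Finset.sum_congr rfl fun j _ => h2 j, ← Finset.mul_sum, ← hM w i]
    show ((D0 : R0) : E) * y' w * (algebraMap A E β * b i) = _
    ring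
  · intro c hcc
    have h1 : Matrix.det (∑ w, (algebraMap ℂ K (c w)) • M w) ≠ 0 := by
      apply hc
      intro h0
      apply hcc
      apply hinj
      rw [map_sum, map_zero, ← h0]
      refine Finset.sum_congr rfl fun w _ => ?_
      rw [Algebra.smul_def, map_mul, ← IsScalarTower.algebraMap_apply ℂ A E, ← IsScalarTower.algebraMap_apply ℂ K E]
    let φ : MvPolynomial s ℂ →+* K := (algebraMap R0 K).comp (e : MvPolynomial s ℂ →+* R0)
    have hφC : ∀ a : ℂ, φ (C a) = algebraMap ℂ K a := by
      intro a
      show algebraMap R0 K (e (C a)) = _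
      have h2 : e (C a) = algebraMap ℂ R0 a := e.commutes a
      rw [h2]
      rfl
    have hφq : ∀ x : W × Fin r × Fin r, φ (e.symm (q0 x)) = algebraMap R0 K D0 * M x.1 x.2.1 x.2.2 := by
      intro x
      show algebraMap R0 K (e (e.symm (q0 x))) = _
      rw [AlgEquiv.apply_symm_apply, hq0, Algebra.smul_def]
    have hd : algebraMap R0 K D0 ≠ 0 := fun h6 =>
      nonZeroDivisors.ne_zero D0.2 (hinjK (h6.trans (map_zero _).symm))
    exact det_trick φ _ hd (fun w => C (c w)) _ _ M (fun w => hφC (c w)) (fun w i j => hφq (w, i, j)) h1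

end Pool.Agent.Y294.LR
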