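import Mathlib
import Pool.Agent.Y120.RealCh

/-!
# Algebras of analytic functions which are linearly disjoint from the rational functions
-/

set_option autoImplicit false

open Set Filter Topology Polynomial

namespace Pool.Agent.Y294.LR

open Pool.Agent.Y120 Pool.Agent.TH818.AP

/-- the ring of the complex valued analytic functions on `[a, b]` -/
def AnR (a b : ℝ) : Subalgebra ℂ (Icc a b → ℂ) where
  carrier := {F | ∃ g : ℝ → ℂ, AnalyticOnNhd ℝ g (Icc a b) ∧ ∀ t : Icc a b, F t = g t}
  mul_mem' := by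
    rintro F G ⟨f, hf, hF⟩ ⟨g, hg, hG⟩
    refine ⟨fun t => f t * g t, hf.mul hg, fun t => ?_⟩
    rw [Pi.mul_apply, hF, hG]
  add_mem' := by
    rintro F G ⟨f, hf, hF⟩ ⟨g, hg, hG⟩
    refine ⟨fun t => f t + g t, hf.add hg, fun t => ?_⟩
    rw [Pi.add_apply, hF, hG]
  algebraMap_mem' := fun c => ⟨fun _ => c, analyticOnNhd_const, fun _ => rfl⟩

theorem isDomain {a b : ℝ} (hab : a < b) : IsDomain (AnR a b) := by
  have : Nonempty (Icc a b) := ⟨⟨a, left_mem_Icc.2 hab.le⟩⟩
  have : Nontrivial (AnR a b) := inferInstance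
  have : NoZeroDivisors (AnR a b) := by
    refine ⟨?_⟩
    rintro ⟨F, f, hf, hF⟩ ⟨G, g, hg, hG⟩ h0
    have h1 : ∀ t ∈ Icc a b, f t * g t = 0 := by
      intro t ht
      have h2 := congrFun (congrArg Subtype.val h0) ⟨t, ht⟩
      have h3 : F ⟨t, ht⟩ * G ⟨t, ht⟩ = 0 := h2
      rw [hF, hG] at h3
      exact h3
    rcases hf.eq_zero_or_eq_zero_of_mul_eq_zero hg h1 isPreconnected_Icc with h2 | h2
    · left
      refine Subtype.ext (funext fun t => ?_)
      show F t = 0
      rw [hF]
      exact h2 _ t.2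
    · right
      refine Subtype.ext (funext fun t => ?_)
      show G t = 0
      rw [hG]
      exact h2 _ t.2
  exact NoZeroDivisors.to_isDomain _

/-- nonzero elements have finitely many zeros -/
theorem finite_zeros {a b : ℝ} (F : AnR a b) (hF : F ≠ 0) : {t : Icc a b | F.1 t = 0}.Finite := by
  obtain ⟨F, f, hf, hFf⟩ := F
  by_contra hinf
  have hinf' : ({t : ℝ | ∃ h : t ∈ Icc a b, F ⟨t, h⟩ = 0}).Infinite := by
    have h1 : (Subtype.val '' {t : Icc a b | F t = 0}).Infinite :=
      (Set.infinite_image_iff Subtype.val_injective.injOn).2 hinf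
    refine h1.mono ?_
    rintro _ ⟨t, ht, rfl⟩
    exact ⟨t.2, ht⟩
  obtain ⟨t0, ht0, hacc⟩ := hinf'.exists_accPt_of_subset_isCompact (isCompact_Icc (a := a) (b := b))
    (by rintro t ⟨h, -⟩; exact h)
  rw [accPt_iff_frequently_nhdsNE] at hacc
  have h1 : ∃ᶠ z in 𝓝[≠] t0, f z = 0 := hacc.mono (by
    rintro z ⟨h, hz⟩
    rw [← hz, hFf])
  have h2 := hf.eqOn_zero_of_preconnected_of_frequently_eq_zero isPreconnected_Icc ht0 h1
  apply hF
  refine Subtype.ext (funext fun t => ?_)
  show F t = 0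
  rw [hFf]
  exact h2 t.2

/-- A family of analytic functions which spans an algebra and is linearly independent over `ℝ[t]`. -/
structure AlgFam (a b : ℝ) {Λ : Type} (H : Λ → ℝ → ℝ) : Prop where
  an : ∀ l, AnalyticOnNhd ℝ (H l) (Icc a b)
  one : ∃ (S : Finset Λ) (c : Λ → ℝ), ∀ t ∈ Icc a b, 1 = ∑ x ∈ S, c x * H x t
  mul : ∀ l m, ∃ (S : Finset Λ) (c : Λ → ℝ), ∀ t ∈ Icc a b, H l t * H m t = ∑ x ∈ S, c x * H x t
  ind : ∀ (S : Finset Λ) (p : Λ → ℝ[X]), (∀ t ∈ Icc a b, ∑ l ∈ S, (p l).eval t * H l t = 0) → ∀ l ∈ S, p l = 0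

variable {a b : ℝ} {Λ : Type} {H : Λ → ℝ → ℝ}

/-- the restrictions -/
def res (a b : ℝ) (H : Λ → ℝ → ℝ) (l : Λ) : Icc a b → ℝ := fun t => H l t

theorem AlgFam.mem_span (hF : AlgFam a b H) {σ : Type} [Fintype σ] (ι : σ → Λ) (e : σ → ℕ) :
    (∏ i, res a b H (ι i) ^ e i) ∈ Submodule.span ℝ (range (res a b H)) := by
  classical
  have hsum : ∀ (S : Finset Λ) (c : Λ → ℝ), (∑ x ∈ S, c x • res a b H x) ∈ Submodule.span ℝ (range (res a b H)) :=
    fun S c => Submodule.sum_mem _ fun x _ => Submodule.smul_mem _ _ (Submodule.subset_span ⟨x, rfl⟩)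
  have h1 : (1 : Icc a b → ℝ) ∈ Submodule.span ℝ (range (res a b H)) := by
    obtain ⟨S, c, hc⟩ := hF.one
    have h2 : (1 : Icc a b → ℝ) = ∑ x ∈ S, c x • res a b H x := by
      funext t
      rw [Finset.sum_apply]
      exact hc t t.2
    rw [h2]
    exact hsum S c
  have hmul : ∀ f ∈ Submodule.span ℝ (range (res a b H)), ∀ g ∈ Submodule.span ℝ (range (res a b H)),
      f * g ∈ Submodule.span ℝ (range (res a b H)) := by
    have h2 : Submodule.span ℝ (range (res a b H)) * Submodule.span ℝ (range (res a b H)) ≤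
        Submodule.span ℝ (range (res a b H)) := by
      rw [Submodule.span_mul_span, Submodule.span_le]
      rintro _ ⟨_, ⟨l, rfl⟩, _, ⟨m, rfl⟩, rfl⟩
      obtain ⟨S, c, hc⟩ := hF.mul l m
      have h3 : (fun x1 x2 : Icc a b → ℝ => x1 * x2) (res a b H l) (res a b H m) = ∑ x ∈ S, c x • res a b H x := by
        funext t
        rw [Finset.sum_apply]
        exact hc t t.2
      rw [h3]
      exact hsum S c
    intro f hf g hg
    exact h2 (Submodule.mul_mem_mul hf hg)
  have hpow : ∀ (f : Icc a b → ℝ) (n : ℕ), f ∈ Submodule.span ℝ (range (res a b H)) →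
      f ^ n ∈ Submodule.span ℝ (range (res a b H)) := by
    intro f n hf
    induction n with
    | zero => rw [pow_zero]; exact h1
    | succ n ih => rw [pow_succ]; exact hmul _ ih _ hf
  refine Finset.prod_induction _ (fun f => f ∈ Submodule.span ℝ (range (res a b H)))
    (fun f g hf hg => hmul f hf g hg) h1 fun i _ => ?_
  exact hpow _ _ (Submodule.subset_span ⟨_, rfl⟩)

/-- the elements of the ring -/
noncomputable def AlgFam.elt (hF : AlgFam a b H) (l : Λ) : AnR a b :=
  ⟨fun t => ((H l t : ℝ) : ℂ), fun t => ((H l t : ℝ) : ℂ), fun t ht =>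
    (Complex.ofRealCLM.analyticAt _).comp (hF.an l t ht), fun _ => rfl⟩

theorem AlgFam.aind (hF : AlgFam a b H) {σ : Type} [Fintype σ] [DecidableEq σ] (ι : σ → Λ)
    (hι : AlgebraicIndependent ℂ fun i : σ => hF.elt (ι i)) : AInd (fun i => H (ι i)) a b := by
  classical
  intro d p hp
  have hex : ∀ e : σ → Fin (d + 1), ∃ c : Λ →₀ ℝ, ∀ t ∈ Icc a b,
      ∏ i, H (ι i) t ^ (e i : ℕ) = ∑ l ∈ c.support, c l * H l t := by
    intro e
    obtain ⟨c, hc⟩ := Finsupp.mem_span_range_iff_exists_finsupp.1 (hF.mem_span ι (fun i => (e i : ℕ)))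
    refine ⟨c, fun t ht => ?_⟩
    have h1 := congrFun hc ⟨t, ht⟩
    rw [Finsupp.sum, Finset.sum_apply, Finset.prod_apply] at h1
    exact h1.symm
  choose c hc using hex
  set S : Finset Λ := Finset.univ.biUnion fun e => (c e).support with hS
  have hc' : ∀ e, ∀ t ∈ Icc a b, ∏ i, H (ι i) t ^ (e i : ℕ) = ∑ l ∈ S, c e l * H l t := by
    intro e t ht
    rw [hc e t ht]
    refine Finset.sum_subset (Finset.subset_biUnion_of_mem (fun e => (c e).support) (Finset.mem_univ e)) ?_
    intro l _ hl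
    rw [Finsupp.notMem_support_iff.1 hl, zero_mul]
  have h1 := hF.ind S (fun l => ∑ e, Polynomial.C (c e l) * p e) (by
    intro t ht
    rw [← hp t ht]
    simp only [Polynomial.eval_finsetSum, Polynomial.eval_mul, Polynomial.eval_C, Finset.sum_mul]
    rw [Finset.sum_comm]
    refine Finset.sum_congr rfl fun e _ => ?_
    rw [hc' e t ht, Finset.mul_sum]
    exact Finset.sum_congr rfl fun l _ => by ring)
  have h2 : ∀ k : ℕ, ∀ l ∈ S, ∑ e, c e l * (p e).coeff k = 0 := by
    intro k l hl
    have h3 := congrArg (fun q : ℝ[X] => q.coeff k) (h1 l hl)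
    simpa [Polynomial.finsetSum_coeff, Polynomial.coeff_C_mul] using h3
  let sO : (σ → Fin (d + 1)) → (σ →₀ ℕ) := fun e => Finsupp.equivFunOnFinite.symm fun i => (e i : ℕ)
  have hsO : Function.Injective sO := by
    intro e e' h
    funext i
    have := DFunLike.congr_fun h i
    exact Fin.ext (by simpa [sO] using this)
  have h3 : ∀ k : ℕ, ∀ e, (p e).coeff k = 0 := by
    intro k
    set P : MvPolynomial σ ℂ := ∑ e, MvPolynomial.monomial (sO e) (((p e).coeff k : ℝ) : ℂ) with hP
    have hP0 : P = 0 := by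
      rw [algebraicIndependent_iff] at hι
      apply hι
      refine Subtype.ext (funext fun t => ?_)
      rw [hP, map_sum]
      have h4 : ∀ e : σ → Fin (d + 1), ((MvPolynomial.aeval (fun i : σ => hF.elt (ι i))
          (MvPolynomial.monomial (sO e) (((p e).coeff k : ℝ) : ℂ)) : AnR a b) : Icc a b → ℂ) t =
          (((p e).coeff k * ∏ i, H (ι i) t ^ (e i : ℕ) : ℝ) : ℂ) := by
        intro e
        rw [MvPolynomial.aeval_monomial, Finsupp.prod_fintype _ _ (fun _ => pow_zero _)]
        push_cast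
        simp only [Pi.mul_apply, Finset.prod_apply, Pi.pow_apply]
        congr 1
      rw [AddSubmonoidClass.coe_finsetSum, Finset.sum_apply, Finset.sum_congr rfl fun e _ => h4 e,
        ← Complex.ofReal_sum]
      have h5 : ∑ e : σ → Fin (d + 1), (p e).coeff k * ∏ i, H (ι i) t ^ (e i : ℕ) = 0 := by
        rw [Finset.sum_congr rfl fun e _ => by rw [hc' e t t.2, Finset.mul_sum]]
        rw [Finset.sum_comm]
        refine Finset.sum_eq_zero fun l hl => ?_
        have h6 := h2 k l hl
        rw [← zero_mul (H l t), ← h6, Finset.sum_mul]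
        exact Finset.sum_congr rfl fun e _ => by ring
      rw [h5]
      rfl
    intro e
    have h6 : MvPolynomial.coeff (sO e) P = (((p e).coeff k : ℝ) : ℂ) := by
      rw [hP, MvPolynomial.coeff_sum, Finset.sum_eq_single e]
      · rw [MvPolynomial.coeff_monomial, if_pos rfl]
      · intro e' _ hne
        rw [MvPolynomial.coeff_monomial, if_neg fun h => hne (hsO h)]
      · intro h
        exact absurd (Finset.mem_univ _) h
    rw [hP0, MvPolynomial.coeff_zero] at h6
    exact_mod_cast h6.symm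
  funext e
  refine Polynomial.ext fun k => ?_
  rw [h3 k e]
  simp

/-- nonzero combinations are nonzero functions -/
theorem AlgFam.comb_ne (hF : AlgFam a b H) {W : Type} [Fintype W] [DecidableEq W] (ι : W → Λ)
    (hι : Function.Injective ι) (c : W → ℂ) (w0 : W) (hc : c w0 ≠ 0) : ∑ w, c w • hF.elt (ι w) ≠ 0 := by
  classical
  intro h0
  have h1 : ∀ t ∈ Icc a b, ∑ w, c w * ((H (ι w) t : ℝ) : ℂ) = 0 := by
    intro t ht
    have h2 := congrFun (congrArg Subtype.val h0) ⟨t, ht⟩
    rw [AddSubmonoidClass.coe_finsetSum, Finset.sum_apply] at h2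
    exact h2
  have hre : ∀ t ∈ Icc a b, ∑ w, (c w).re * H (ι w) t = 0 := by
    intro t ht
    have h2 := congrArg Complex.re (h1 t ht)
    simpa [Complex.re_sum] using h2
  have him : ∀ t ∈ Icc a b, ∑ w, (c w).im * H (ι w) t = 0 := by
    intro t ht
    have h2 := congrArg Complex.im (h1 t ht)
    simpa [Complex.im_sum] using h2
  have key : ∀ r : W → ℝ, (∀ t ∈ Icc a b, ∑ w, r w * H (ι w) t = 0) → ∀ w, r w = 0 := by
    intro r hr w
    let p : Λ → ℝ[X] := fun l => ∑ w, if ι w = l then Polynomial.C (r w) else 0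
    have hp : ∀ w, p (ι w) = Polynomial.C (r w) := by
      intro w
      show ∑ w', (if ι w' = ι w then Polynomial.C (r w') else 0) = _
      rw [Finset.sum_eq_single w]
      · rw [if_pos rfl]
      · intro w' _ hne
        rw [if_neg fun h => hne (hι h)]
      · intro h
        exact absurd (Finset.mem_univ _) h
    have h2 := hF.ind (Finset.univ.image ι) p (by
      intro t ht
      rw [Finset.sum_image fun x _ y _ h => hι h, ← hr t ht]
      refine Finset.sum_congr rfl fun w _ => ?_
      rw [hp, Polynomial.eval_C]) (ι w) (Finset.mem_image_of_mem _ (Finset.mem_univ w))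
    rw [hp] at h2
    exact Polynomial.C_eq_zero.1 h2
  exact hc (Complex.ext (key _ hre w0) (key _ him w0))

end Pool.Agent.Y294.LR
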