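import Pool.Agent.Y294.LR.Alg
import Pool.Agent.Y294.LR.Ring
import Pool.Agent.Y890.UC.Uni

/-!
# Linear relations between the values of the functions of an algebra: one variable
-/

set_option autoImplicit false
set_option linter.unusedSectionVars false

open Set Filter Topology

namespace Pool.Agent.Y294.LR

open Pool.Agent.Y120 Pool.Agent.TH818.AP Pool.Agent.Y890.UC MvPolynomial

/-- the numbers `g w` satisfy a linear relation whose coefficients are integer combinations of the constants `ξ s` -/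
def RelE {h W : Type} [Fintype h] [Fintype W] (ξ : h → ℂ) (g : W → ℂ) (N : ℝ) : Prop :=
  ∃ c : W → h → ℤ, (∀ w s, |(c w s : ℝ)| ≤ N) ∧ (∃ w₀, ∑ s, ξ s * (c w₀ s : ℂ) ≠ 0) ∧
    ∑ w, (∑ s, ξ s * (c w s : ℂ)) * g w = 0

/-- few exceptional points in one variable, for all systems of constants -/
def OneLin {α W : Type} [Fintype W] (X : ℝ → Finset α) (v : α → W → ℂ) : Prop :=
  ∀ (h : Type) [Fintype h] [DecidableEq h] (A ε : ℝ), 0 < ε → ∃ C T2 : ℝ, 0 < C ∧ 2 ≤ T2 ∧
    ∀ T : ℝ, T2 ≤ T → ∀ ξ : h → ℂ, ∀ Y ⊆ X T, (∀ x ∈ Y, RelE ξ (v x) (T ^ A)) → (Y.card : ℝ) ≤ C * T ^ ε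

section poly

/-- exponents -/
noncomputable def ex {τ : Type} [Finite τ] {d : ℕ} (e : τ → Fin (d + 1)) : τ →₀ ℕ :=
  Finsupp.equivFunOnFinite.symm fun i => (e i : ℕ)

theorem ex_inj {τ : Type} [Finite τ] {d : ℕ} : Function.Injective (ex (τ := τ) (d := d)) := by
  intro e e' h
  funext i
  have := DFunLike.congr_fun h i
  exact Fin.ext (by simpa [ex] using this)

theorem exists_ex {τ : Type} [Finite τ] {R : Type} [CommSemiring R] {d : ℕ} (P : MvPolynomial τ R)
    (hP : ∀ i, P.degreeOf i ≤ d) (u : τ →₀ ℕ) (hu : u ∈ P.support) : ∃ e : τ → Fin (d + 1), ex e = u := by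
  have hle : ∀ x, u x < d + 1 := fun x =>
    Nat.lt_succ_of_le ((MvPolynomial.monomial_le_degreeOf x hu).trans (hP x))
  refine ⟨fun i => ⟨u i, hle i⟩, ?_⟩
  ext i
  simp [ex]

theorem eval_eq_sum {τ : Type} [Fintype τ] [DecidableEq τ] {d : ℕ} (y : τ → ℂ)
    (P : MvPolynomial τ ℂ) (hP : ∀ i, P.degreeOf i ≤ d) :
    eval y P = ∑ e : τ → Fin (d + 1), P.coeff (ex e) * ∏ i, y i ^ (e i : ℕ) := by
  classical
  have h1 : ∀ e : τ → Fin (d + 1), ∏ i, y i ^ (e i : ℕ) = ∏ i, y i ^ (ex e i) := fun e => by simp [ex]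
  simp only [h1]
  rw [MvPolynomial.eval_eq']
  rw [← Finset.sum_image (f := fun u : τ →₀ ℕ => P.coeff u * ∏ i, y i ^ (u i)) (fun a _ b _ hab => ex_inj hab)]
  refine Finset.sum_subset ?_ ?_
  · intro u hu
    obtain ⟨e, he⟩ := exists_ex P hP u hu
    exact Finset.mem_image.2 ⟨e, Finset.mem_univ _, he⟩
  · intro u _ hu
    rw [MvPolynomial.notMem_support_iff.1 hu]
    simp

theorem degreeOf_map_le {τ R R' : Type} [CommSemiring R] [CommSemiring R'] (φ : R →+* R') (P : MvPolynomial τ R)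
    (i : τ) : degreeOf i (map φ P) ≤ degreeOf i P := by
  classical
  rw [degreeOf_le_iff]
  intro m hm
  exact monomial_le_degreeOf i (support_map_subset φ P hm)

end poly

/-- determinants and homomorphisms -/
theorem det_hom {R S W : Type} [CommRing R] [CommRing S] [Fintype W] {r : ℕ} (Φ : R →+* S) (g : W → R) (g' : W → S)
    (q : W → Matrix (Fin r) (Fin r) R) (p : W → Matrix (Fin r) (Fin r) S) (h1 : ∀ w, Φ (g w) = g' w)
    (h2 : ∀ w i j, Φ (q w i j) = p w i j) :
    Φ (Matrix.det (∑ w, g w • q w)) = Matrix.det (∑ w, g' w • p w) := by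
  rw [RingHom.map_det]
  congr 1
  rw [map_sum]
  refine Finset.sum_congr rfl fun w _ => ?_
  refine Matrix.ext fun i j => ?_
  simp only [RingHom.mapMatrix_apply, Matrix.map_apply, Matrix.smul_apply, smul_eq_mul, map_mul, h1, h2]

/-- specialisation of the generic determinant -/
theorem generic {s W h : Type} [Fintype W] [Fintype h] {r : ℕ} (p : W → Matrix (Fin r) (Fin r) (MvPolynomial s ℂ)) :
    ∃ G : MvPolynomial s (MvPolynomial (W × h) (MvPolynomial h ℂ)), ∀ (ξ : h → ℂ) (c : W → h → ℂ),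
      map ((eval (fun x : W × h => c x.1 x.2)).comp (map (eval ξ))) G =
        Matrix.det (∑ w, (C (∑ x, ξ x * c w x) : MvPolynomial s ℂ) • p w) := by
  classical
  let ψ : ℂ →+* MvPolynomial (W × h) (MvPolynomial h ℂ) := C.comp C
  let g : W → MvPolynomial s (MvPolynomial (W × h) (MvPolynomial h ℂ)) := fun w => C (∑ x, X (w, x) * C (X x))
  let q : W → Matrix (Fin r) (Fin r) (MvPolynomial s (MvPolynomial (W × h) (MvPolynomial h ℂ))) :=
    fun w => Matrix.of fun i j => map ψ (p w i j)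
  refine ⟨Matrix.det (∑ w, g w • q w), ?_⟩
  intro ξ c
  have hg : ∀ w, map ((eval (fun x : W × h => c x.1 x.2)).comp (map (eval ξ))) (g w) =
      (C (∑ x, ξ x * c w x) : MvPolynomial s ℂ) := by
    intro w
    rw [map_C]
    congr 1
    simp only [RingHom.comp_apply, map_sum, map_mul, map_X, map_C, eval_X, eval_C]
    exact Finset.sum_congr rfl fun x _ => mul_comm _ _
  have hq : ∀ w i j, map ((eval (fun x : W × h => c x.1 x.2)).comp (map (eval ξ))) (q w i j) = p w i j := by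
    intro w i j
    have hφψ : ((eval (fun x : W × h => c x.1 x.2)).comp (map (eval ξ))).comp ψ = RingHom.id ℂ := by
      ext z
      simp [ψ]
    show map ((eval (fun x : W × h => c x.1 x.2)).comp (map (eval ξ))) (map ψ (p w i j)) = p w i j
    rw [MvPolynomial.map_map, hφψ, MvPolynomial.map_id]
  exact det_hom _ g _ q p hg hq

variable {a b : ℝ} {Λ : Type} {H : Λ → ℝ → ℝ}

theorem AlgFam.eval_aeval (hF : AlgFam a b H) {s : Type} (ι : s → Λ) (P : MvPolynomial s ℂ) (t : Icc a b) :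
    ((aeval (fun i => hF.elt (ι i)) P : AnR a b) : Icc a b → ℂ) t = eval (fun i => ((H (ι i) t : ℝ) : ℂ)) P := by
  let ev : AnR a b →ₐ[ℂ] ℂ := (Pi.evalAlgHom ℂ (fun _ : Icc a b => ℂ) t).comp (AnR a b).val
  have h1 : ev (aeval (fun i => hF.elt (ι i)) P) = aeval (fun i => ev (hF.elt (ι i))) P := by
    rw [MvPolynomial.comp_aeval_apply]
  have h2 : aeval (fun i => ev (hF.elt (ι i))) P = eval (fun i => ev (hF.elt (ι i))) P :=
    DFunLike.congr_fun (MvPolynomial.coe_aeval_eq_eval _) P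
  exact h1.trans h2

/-- the eigenvector relation at a point -/
theorem AlgFam.det_zero (hF : AlgFam a b H) {W : Type} [Fintype W] (ι : W → Λ) {s : Set W} {r : ℕ}
    (p : W → Matrix (Fin r) (Fin r) (MvPolynomial s ℂ)) (D : MvPolynomial s ℂ) (α : Fin r → AnR a b) (i0 : Fin r)
    (hmat : ∀ w i, aeval (fun b : s => hF.elt (ι b)) D * hF.elt (ι w) * α i =
      ∑ j, aeval (fun b : s => hF.elt (ι b)) (p w i j) * α j)
    (c : W → ℂ) (t : Icc a b) (hα : (α i0).1 t ≠ 0) (h0 : ∑ w, c w * ((H (ι w) t : ℝ) : ℂ) = 0) :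
    eval (fun i : s => ((H (ι i) t : ℝ) : ℂ)) (Matrix.det (∑ w, (C (c w) : MvPolynomial s ℂ) • p w)) = 0 := by
  classical
  set y : s → ℂ := fun i : s => ((H (ι i) t : ℝ) : ℂ) with hy
  have h1 := det_hom (eval y) (fun w => C (c w)) c p (fun w => Matrix.of fun i j => eval y (p w i j))
    (fun w => eval_C _) (fun w i j => rfl)
  refine h1.trans ?_
  rw [← Matrix.exists_mulVec_eq_zero_iff]
  refine ⟨fun j => (α j).1 t, fun h => hα (congrFun h i0), ?_⟩
  have hm : ∀ w i, eval y D * ((H (ι w) t : ℝ) : ℂ) * (α i).1 t = ∑ j, eval y (p w i j) * (α j).1 t := by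
    intro w i
    have h2 := congrFun (congrArg Subtype.val (hmat w i)) t
    rw [AddSubmonoidClass.coe_finsetSum, Finset.sum_apply] at h2
    have h3 : ∀ j, ((aeval (fun b : s => hF.elt (ι b)) (p w i j) * α j : AnR a b) : Icc a b → ℂ) t =
        eval y (p w i j) * (α j).1 t := by
      intro j
      rw [← hF.eval_aeval (fun b : s => ι b) (p w i j) t]
      rfl
    rw [Finset.sum_congr rfl fun j _ => h3 j] at h2
    rw [← h2, ← hF.eval_aeval (fun b : s => ι b) D t]
    rfl
  funext i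
  show ∑ j, (∑ w, c w • Matrix.of fun i j => eval y (p w i j)) i j * (α j).1 t = 0
  have h4 : ∀ j, (∑ w, c w • (Matrix.of fun i j => eval y (p w i j) : Matrix (Fin r) (Fin r) ℂ)) i j =
      ∑ w, c w * eval y (p w i j) := by
    intro j
    rw [Matrix.sum_apply]
    rfl
  rw [Finset.sum_congr rfl fun j _ => by rw [h4 j, Finset.sum_mul], Finset.sum_comm]
  have h5 : ∀ w, ∑ j, c w * eval y (p w i j) * (α j).1 t =
      eval y D * (α i).1 t * (c w * ((H (ι w) t : ℝ) : ℂ)) := by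
    intro w
    have h6 : ∑ j, c w * eval y (p w i j) * (α j).1 t = c w * ∑ j, eval y (p w i j) * (α j).1 t := by
      rw [Finset.mul_sum]
      exact Finset.sum_congr rfl fun j _ => mul_assoc _ _ _
    rw [h6, ← hm]
    ring
  rw [Finset.sum_congr rfl fun w _ => h5 w, ← Finset.mul_sum, h0, mul_zero]

/-- **One variable.** -/
theorem AlgFam.oneLin (hab : a < b) (hF : AlgFam a b H) {W : Type} [Fintype W] [DecidableEq W] (ι : W → Λ)
    (hι : Function.Injective ι) :
    OneLin (fun T => RT a b T) (fun (q : ℚ) w => ((H (ι w) q : ℝ) : ℂ)) := by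
  classical
  intro h _ _ A ε hε
  have hdom : IsDomain (AnR a b) := isDomain hab
  obtain ⟨s, r, p, D, α, hs, ⟨i0, hi0⟩, hmat, hdet⟩ := normform (fun w => hF.elt (ι w))
  obtain ⟨G, hG⟩ := generic (h := h) p
  set d : ℕ := Finset.univ.sup fun i : s => degreeOf i G with hd
  set t : ℕ := Finset.univ.sup fun e : s → Fin (d + 1) => Finset.univ.sup fun j : W × h => degreeOf j (coeff (ex e) G)
    with ht
  set A' : ℝ := max A 0 * ((t : ℝ) * (Fintype.card (W × h) : ℝ)) with hA'
  obtain ⟨B, C, T2, hC, hT2, hu⟩ := uniform_arb (fun i : s => H (ι i)) a b hab (fun i => hF.an _)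
    (hF.aind (fun i : s => ι i) hs) ((s → Fin (d + 1)) × (W × h → Fin (t + 1))) d A' ε hε
  have hZ := finite_zeros (α i0) hi0
  refine ⟨C + (hZ.toFinset.card + 1), T2, by positivity, hT2, fun T hT ξ Y hY hrel => ?_⟩
  have hTp : 0 < T := by linarith
  have hT1 : 1 ≤ T := by linarith
  have hTε : 1 ≤ T ^ ε := Real.one_le_rpow hT1 hε.le
  set ξ' : (s → Fin (d + 1)) × (W × h → Fin (t + 1)) → ℂ := fun x =>
    coeff (ex x.2) (map (eval ξ) (coeff (ex x.1) G)) with hξ'
  obtain ⟨hfin, hcard⟩ := hu T hT ξ'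
  set Y1 := Y.filter fun q : ℚ => ∃ hq : (q : ℝ) ∈ Icc a b, (α i0).1 ⟨q, hq⟩ = 0 with hY1
  set Y2 := Y.filter fun q : ℚ => ¬ ∃ hq : (q : ℝ) ∈ Icc a b, (α i0).1 ⟨q, hq⟩ = 0 with hY2
  have hsplit : Y.card = Y1.card + Y2.card := by
    rw [hY1, hY2, Finset.card_filter_add_card_filter_not]
  have hc1 : Y1.card ≤ hZ.toFinset.card := by
    refine Finset.card_le_card_of_injOn
      (fun q : ℚ => if hq : (q : ℝ) ∈ Icc a b then (⟨q, hq⟩ : Icc a b) else ⟨a, left_mem_Icc.2 hab.le⟩) ?_ ?_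
    · intro q hq
      obtain ⟨-, hq1, hq2⟩ := Finset.mem_filter.1 hq
      rw [Finset.mem_coe, Set.Finite.mem_toFinset]
      show (α i0).1 (dite _ _ _) = 0
      rw [dif_pos hq1]
      exact hq2
    · intro q hq q' hq' heq
      obtain ⟨-, hq1, -⟩ := Finset.mem_filter.1 hq
      obtain ⟨-, hq1', -⟩ := Finset.mem_filter.1 hq'
      have h1 : (if hq : (q : ℝ) ∈ Icc a b then (⟨q, hq⟩ : Icc a b) else ⟨a, left_mem_Icc.2 hab.le⟩) =
        (if hq : (q' : ℝ) ∈ Icc a b then (⟨q', hq⟩ : Icc a b) else ⟨a, left_mem_Icc.2 hab.le⟩) := heq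
      rw [dif_pos hq1, dif_pos hq1'] at h1
      have h2 : (q : ℝ) = (q' : ℝ) := congrArg Subtype.val h1
      exact_mod_cast h2
  have hsub : (Y2 : Set ℚ) ⊆ ExcA d (fun i : s => H (ι i)) a b A' B T ξ' := by
    intro q hq
    obtain ⟨hqY, hqα⟩ := Finset.mem_filter.1 (Finset.mem_coe.1 hq)
    obtain ⟨hqI, hqd⟩ := mem_RT.1 (hY hqY)
    obtain ⟨c, hcA, ⟨w0, hw0⟩, hc0⟩ := hrel q hqY
    have hα : (α i0).1 ⟨q, hqI⟩ ≠ 0 := fun h0 => hqα ⟨hqI, h0⟩
    set cc : W → ℂ := fun w => ∑ x, ξ x * (c w x : ℂ) with hcc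
    set N : MvPolynomial s ℂ := Matrix.det (∑ w, (MvPolynomial.C (cc w) : MvPolynomial s ℂ) • p w) with hN
    have hN0 : N ≠ 0 := hdet cc (hF.comb_ne ι hι cc w0 hw0)
    have hev : eval (fun i : s => ((H (ι i) q : ℝ) : ℂ)) N = 0 :=
      hF.det_zero ι p D α i0 hmat cc ⟨q, hqI⟩ hα hc0
    have hGN : map ((eval (fun x : W × h => (c x.1 x.2 : ℂ))).comp (map (eval ξ))) G = N :=
      hG ξ (fun w x => (c w x : ℂ))
    have hNd : ∀ i, degreeOf i N ≤ d := by
      intro i
      rw [← hGN]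
      exact (degreeOf_map_le _ _ _).trans (Finset.le_sup (f := fun i : s => degreeOf i G) (Finset.mem_univ i))
    have hNc : ∀ e : s → Fin (d + 1), coeff (ex e) N =
        ∑ u : W × h → Fin (t + 1), ξ' (e, u) * ∏ j, (c j.1 j.2 : ℂ) ^ (u j : ℕ) := by
      intro e
      rw [← hGN, coeff_map, RingHom.comp_apply, eval_eq_sum (d := t)]
      intro j
      refine (degreeOf_map_le _ _ _).trans ?_
      refine le_trans ?_ (Finset.le_sup (f := fun e : s → Fin (d + 1) =>
        Finset.univ.sup fun j : W × h => degreeOf j (coeff (ex e) G)) (Finset.mem_univ e))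
      exact Finset.le_sup (f := fun j : W × h => degreeOf j (coeff (ex e) G)) (Finset.mem_univ j)
    set c' : (s → Fin (d + 1)) → (s → Fin (d + 1)) × (W × h → Fin (t + 1)) → ℤ := fun l x =>
      if x.1 = l then ∏ j, (c j.1 j.2) ^ (x.2 j : ℕ) else 0 with hc'
    have hsum : ∀ l, ∑ x, ξ' x * (c' l x : ℂ) = coeff (ex l) N := by
      intro l
      rw [hNc, Fintype.sum_prod_type, Finset.sum_eq_single l]
      · refine Finset.sum_congr rfl fun u _ => ?_
        simp only [hc', if_true]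
        push_cast
        rfl
      · intro e _ hne
        refine Finset.sum_eq_zero fun u _ => ?_
        simp only [hc', if_neg hne, Int.cast_zero, mul_zero]
      · intro h1
        exact absurd (Finset.mem_univ _) h1
    have hM0 : 1 ≤ T ^ (max A 0) := Real.one_le_rpow hT1 (le_max_right _ _)
    refine ⟨hqI, hqd, c', ?_, ?_⟩
    · intro l x
      simp only [hc']
      split_ifs with hx
      · push_cast
        rw [Finset.abs_prod]
        calc ∏ j, |(c j.1 j.2 : ℝ) ^ (x.2 j : ℕ)| ≤ ∏ j : W × h, (T ^ (max A 0)) ^ t := by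
              refine Finset.prod_le_prod (fun j _ => abs_nonneg _) fun j _ => ?_
              rw [abs_pow]
              have h2 : |(c j.1 j.2 : ℝ)| ≤ T ^ (max A 0) :=
                (hcA _ _).trans (Real.rpow_le_rpow_of_exponent_le hT1 (le_max_left _ _))
              calc |(c j.1 j.2 : ℝ)| ^ (x.2 j : ℕ) ≤ (T ^ (max A 0)) ^ (x.2 j : ℕ) :=
                    pow_le_pow_left₀ (abs_nonneg _) h2 _
                _ ≤ (T ^ (max A 0)) ^ t := pow_le_pow_right₀ hM0 (Nat.lt_succ_iff.1 (x.2 j).isLt)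
          _ = T ^ A' := by
              rw [Finset.prod_const, Finset.card_univ, ← pow_mul, hA', ← Real.rpow_natCast, ← Real.rpow_mul hTp.le]
              push_cast
              rfl
      · rw [Int.cast_zero, abs_zero]
        positivity
    · obtain ⟨m, hm⟩ := MvPolynomial.support_nonempty.2 hN0
      obtain ⟨l₀, hl₀⟩ := exists_ex N hNd m hm
      refine ⟨l₀, ?_, ?_⟩
      · rw [hsum, hl₀]
        exact mem_support_iff.1 hm
      · have h3 : ∑ l, (∑ x, ξ' x * (c' l x : ℂ)) * ((gm d (fun i : s => H (ι i)) l q : ℝ) : ℂ) = 0 := by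
          rw [← hev, eval_eq_sum (d := d) _ _ hNd]
          refine Finset.sum_congr rfl fun l _ => ?_
          rw [hsum, gm]
          push_cast
          rfl
        rw [h3, norm_zero]
        positivity
  have hc2 : (Y2.card : ℝ) ≤ C * T ^ ε := by
    have h1 := Set.ncard_le_ncard hsub hfin
    rw [Set.ncard_coe_finset] at h1
    exact (Nat.cast_le.2 h1).trans hcard
  rw [hsplit]
  push_cast
  have h2 : (Y1.card : ℝ) ≤ hZ.toFinset.card := by exact_mod_cast hc1
  have h3 : (0 : ℝ) ≤ hZ.toFinset.card := Nat.cast_nonneg _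
  nlinarith

end Pool.Agent.Y294.LR
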