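import Pool.Agent.Y294.LR.Fin
import Pool.Agent.Y119.UP.Main

/-!
# Iterated integrals of algebraic functions at rational points
-/

set_option autoImplicit false
set_option linter.unusedSectionVars false

open Filter Topology Set Polynomial

namespace Pool.Agent.Y294.LR

open Pool.Agent.Y119.UP Pool.Agent.TH818.AP

variable {κ : Type} [Fintype κ] [DecidableEq κ]

/-- iterated primitives -/
structure IterFam (α β : ℝ) (u : κ → ℝ → ℝ) (I : List κ → ℝ → ℝ) : Prop where
  hu : ∀ i, AnalyticOnNhd ℝ (u i) (Ioo α β)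
  hua : ∀ i, AlgOn α β (u i)
  hprim : ∀ c : κ → ℝ, AlgPrim α β (fun t => ∑ i, c i * u i t) → c = 0
  hI0 : ∀ t ∈ Ioo α β, I [] t = 1
  hI : ∀ i w, ∀ t ∈ Ioo α β, HasDerivAt (I (i :: w)) (u i t * I w t) t

variable {α β a b : ℝ} {u : κ → ℝ → ℝ} {I : List κ → ℝ → ℝ}

/-- the value of a combination -/
noncomputable def LC (I : List κ → ℝ → ℝ) (c : List κ →₀ ℝ) (t : ℝ) : ℝ :=
  Finsupp.linearCombination ℝ (fun w => I w t) c

theorem LC_apply (c : List κ →₀ ℝ) (t : ℝ) : LC I c t = ∑ w ∈ c.support, c w * I w t := by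
  rw [LC, Finsupp.linearCombination_apply, Finsupp.sum]
  rfl

theorem LC_add (c d : List κ →₀ ℝ) (t : ℝ) : LC I (c + d) t = LC I c t + LC I d t := by
  rw [LC, map_add]
  rfl

theorem LC_single (w : List κ) (r t : ℝ) : LC I (Finsupp.single w r) t = r * I w t := by
  rw [LC, Finsupp.linearCombination_single]
  rfl

theorem LC_pre (i : κ) (c : List κ →₀ ℝ) (t : ℝ) :
    LC I (c.mapDomain (List.cons i)) t = ∑ w ∈ c.support, c w * I (i :: w) t := by
  rw [LC, Finsupp.linearCombination_mapDomain, Finsupp.linearCombination_apply, Finsupp.sum]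
  rfl

theorem LC_deriv (hI : ∀ i w, ∀ t ∈ Ioo α β, HasDerivAt (I (i :: w)) (u i t * I w t) t) (i : κ)
    (c : List κ →₀ ℝ) (t : ℝ) (ht : t ∈ Ioo α β) :
    HasDerivAt (fun t => LC I (c.mapDomain (List.cons i)) t) (u i t * LC I c t) t := by
  have h1 : (fun t => LC I (c.mapDomain (List.cons i)) t) = fun t => ∑ w ∈ c.support, c w * I (i :: w) t := by
    funext t
    exact LC_pre i c t
  rw [h1, LC_apply, Finset.mul_sum]
  have h2 : HasDerivAt (fun t => ∑ w ∈ c.support, c w * I (i :: w) t)
      (∑ w ∈ c.support, c w * (u i t * I w t)) t :=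
    HasDerivAt.fun_sum fun w _ => (hI i w t ht).const_mul (c w)
  convert! h2 using 1
  exact Finset.sum_congr rfl fun w _ => by ring

/-- **The shuffle product.** -/
theorem shuffle (hαβ : α < β) (hI0 : ∀ t ∈ Ioo α β, I [] t = 1)
    (hI : ∀ i w, ∀ t ∈ Ioo α β, HasDerivAt (I (i :: w)) (u i t * I w t) t) (n : ℕ) :
    ∀ v w : List κ, v.length + w.length ≤ n →
      ∃ c : List κ →₀ ℝ, ∀ t ∈ Ioo α β, I v t * I w t = LC I c t := by
  classical
  induction n with
  | zero =>
    intro v w hn
    have hv : v = [] := List.eq_nil_of_length_eq_zero (by omega)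
    have hw : w = [] := List.eq_nil_of_length_eq_zero (by omega)
    subst hv
    subst hw
    exact ⟨Finsupp.single [] 1, fun t ht => by rw [LC_single, hI0 t ht]⟩
  | succ n ih =>
    intro v w hn
    rcases v with _ | ⟨i, v⟩
    · exact ⟨Finsupp.single w 1, fun t ht => by rw [LC_single, hI0 t ht]⟩
    rcases w with _ | ⟨j, w⟩
    · exact ⟨Finsupp.single (i :: v) 1, fun t ht => by rw [LC_single, hI0 t ht, mul_comm]⟩
    simp only [List.length_cons] at hn
    obtain ⟨c1, h1⟩ := ih v (j :: w) (by simp only [List.length_cons]; omega)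
    obtain ⟨c2, h2⟩ := ih (i :: v) w (by simp only [List.length_cons]; omega)
    set R : ℝ → ℝ := fun t => LC I (c1.mapDomain (List.cons i)) t + LC I (c2.mapDomain (List.cons j)) t with hR
    set D : ℝ → ℝ := fun t => I (i :: v) t * I (j :: w) t - R t with hD
    have hder : ∀ t ∈ Ioo α β, HasDerivAt D 0 t := by
      intro t ht
      have e1 := (hI i v t ht).mul (hI j w t ht)
      have e2 := (LC_deriv hI i c1 t ht).add (LC_deriv hI j c2 t ht)
      have e3 := e1.sub e2
      have e4 : u i t * I v t * I (j :: w) t + I (i :: v) t * (u j t * I w t) -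
          (u i t * LC I c1 t + u j t * LC I c2 t) = 0 := by
        rw [← h1 t ht, ← h2 t ht]
        ring
      rw [e4] at e3
      exact e3
    obtain ⟨t0, ht0⟩ : (Ioo α β).Nonempty := nonempty_Ioo.2 hαβ
    have hconst : ∀ t ∈ Ioo α β, D t = D t0 := fun t ht =>
      isOpen_Ioo.is_const_of_deriv_eq_zero isPreconnected_Ioo
        (fun s hs => (hder s hs).differentiableAt.differentiableWithinAt) (fun s hs => (hder s hs).deriv) ht ht0
    refine ⟨c1.mapDomain (List.cons i) + c2.mapDomain (List.cons j) + Finsupp.single [] (D t0), fun t ht => ?_⟩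
    rw [LC_add, LC_add, LC_single, hI0 t ht, mul_one, ← hconst t ht]
    simp only [hD, hR]
    ring

theorem IterFam.algFam (hF : IterFam α β u I) (ha : α < a) (hab : a < b) (hb : b < β) : AlgFam a b I where
  an w := (iter_an hF.hu hF.hI0 hF.hI w).mono fun t ht => ⟨lt_of_lt_of_le ha ht.1, lt_of_le_of_lt ht.2 hb⟩
  one := ⟨{[]}, fun _ => 1, fun t ht => by
    rw [Finset.sum_singleton, one_mul, hF.hI0 t ⟨lt_of_lt_of_le ha ht.1, lt_of_le_of_lt ht.2 hb⟩]⟩
  mul v w := by
    obtain ⟨c, hc⟩ := shuffle (ha.trans (hab.trans hb)) hF.hI0 hF.hI (v.length + w.length) v w le_rfl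
    exact ⟨c.support, c, fun t ht => by
      rw [hc t ⟨lt_of_lt_of_le ha ht.1, lt_of_le_of_lt ht.2 hb⟩, LC_apply]⟩
  ind S p hp := by
    classical
    set W : ℕ := S.sup List.length with hW
    have hS : S ⊆ wd κ W := fun w hw => (mem_wd _ _).2 (Finset.le_sup (f := List.length) hw)
    have h1 := main_ind (ρ := Unit) ha hab hb hF.hu hF.hua hF.hprim (v := fun _ _ => 1)
      (fun _ => analyticOnNhd_const)
      (fun _ => ⟨MvPolynomial.X 1 - 1, by
        intro h0
        have h2 := congrArg (MvPolynomial.eval ![(0 : ℝ), 0]) h0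
        simp at h2, fun t _ => by simp⟩)
      (fun q hq => by
        funext l
        have h3 : (q ()) = 0 := by
          refine Polynomial.eq_zero_of_infinite_isRoot _ ?_
          refine Set.Infinite.mono ?_ (Set.Ioo_infinite (ha.trans (hab.trans hb)))
          intro t ht
          have h4 := hq t ht
          simp only [Finset.univ_unique, PUnit.default_eq_unit, mul_one, Finset.sum_singleton] at h4
          exact h4
        exact h3)
      hF.hI0 hF.hI W
    have h2 := h1 (fun x => if x.1.1 ∈ S then p x.1.1 else 0) (by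
      intro t ht
      rw [Fintype.sum_prod_type]
      simp only [Finset.univ_unique, PUnit.default_eq_unit, one_mul, Finset.sum_singleton]
      rw [← hp t ht]
      have h3 : ∀ w : {w // w ∈ wd κ W}, (if w.1 ∈ S then p w.1 else 0).eval t * I w.1 t =
          (fun w : List κ => if w ∈ S then (p w).eval t * I w t else 0) w.1 := by
        intro w
        by_cases hw : w.1 ∈ S
        · simp only [hw, if_true]
        · simp only [hw, if_false, eval_zero, zero_mul]
      rw [Finset.sum_congr rfl fun w _ => h3 w]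
      rw [Finset.sum_coe_sort (wd κ W) (fun w : List κ => if w ∈ S then (p w).eval t * I w t else 0),
        ← Finset.sum_filter, Finset.filter_mem_eq_inter, Finset.inter_eq_right.2 hS])
    intro l hl
    have h3 := congrFun h2 (⟨l, hS hl⟩, ())
    simp only [hl, if_true, Pi.zero_apply] at h3
    exact h3

end Pool.Agent.Y294.LR
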