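import Mathlib

/-!
# Multiple Hurwitz zeta functions
-/

set_option autoImplicit false

open Filter Topology Set

namespace Pool.Agent.Y294.LR

/-- admissible words of exponents (the first exponent belongs to the smallest summation index) -/
def Adm : List ℕ → Prop
  | [] => True
  | [s] => 2 ≤ s
  | s :: t :: w => 1 ≤ s ∧ Adm (t :: w)

/-- the multiple Hurwitz zeta functions -/
noncomputable def mzc : List ℕ → ℂ → ℂ
  | [], _ => 1
  | s :: w, z => ∑' m : ℕ, 1 / ((m : ℂ) + z) ^ s * mzc w ((m : ℂ) + z + 1)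

/-- the multiple Hurwitz zeta functions of a real variable -/
noncomputable def mhz : List ℕ → ℝ → ℝ
  | [], _ => 1
  | s :: w, x => ∑' m : ℕ, 1 / ((m : ℝ) + x) ^ s * mhz w ((m : ℝ) + x + 1)

theorem mzc_ofReal (w : List ℕ) : ∀ x : ℝ, mzc w (x : ℂ) = ((mhz w x : ℝ) : ℂ) := by
  induction w with
  | nil => intro x; simp [mzc, mhz]
  | cons s w ih =>
    intro x
    rw [mzc, mhz, Complex.ofReal_tsum]
    refine tsum_congr fun m => ?_
    push_cast
    rw [← ih]
    push_cast
    rfl

theorem Adm.tail {s : ℕ} {w : List ℕ} (h : Adm (s :: w)) : Adm w := by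
  rcases w with _ | ⟨t, w⟩
  · trivial
  · exact h.2

theorem Adm.pos {s : ℕ} {w : List ℕ} (h : Adm (s :: w)) : 1 ≤ s := by
  rcases w with _ | ⟨t, w⟩
  · have h1 : 2 ≤ s := h
    omega
  · exact h.1

theorem Adm.cons {s : ℕ} {w : List ℕ} (h : Adm w) (hs : 1 ≤ s) (hw : w ≠ []) : Adm (s :: w) := by
  rcases w with _ | ⟨t, w⟩
  · exact absurd rfl hw
  · exact ⟨hs, h⟩

theorem Adm.cons2 {s : ℕ} {w : List ℕ} (h : Adm w) (hs : 2 ≤ s) : Adm (s :: w) := by
  rcases w with _ | ⟨t, w⟩
  · exact hs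
  · exact ⟨by omega, h⟩

/-- the comparison series -/
noncomputable def us (m : ℕ) (x : ℝ) : ℝ := 1 / ((m + x) * (m + x + 1))

theorem us_nonneg (m : ℕ) {x : ℝ} (hx : 0 < x) : 0 ≤ us m x := by
  unfold us
  positivity

theorem us_anti (m : ℕ) {x y : ℝ} (hx : 0 < x) (hxy : x ≤ y) : us m y ≤ us m x := by
  unfold us
  have hm : (0 : ℝ) ≤ m := Nat.cast_nonneg m
  refine one_div_le_one_div_of_le (by positivity) ?_
  exact mul_le_mul (by linarith) (by linarith) (by positivity) (by linarith)

theorem hasSum_us {x : ℝ} (hx : 0 < x) : HasSum (fun m : ℕ => us m x) (1 / x) := by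
  rw [hasSum_iff_tendsto_nat_of_nonneg (fun m => us_nonneg m hx)]
  have h1 : ∀ N : ℕ, ∑ m ∈ Finset.range N, us m x = 1 / x - 1 / (N + x) := by
    intro N
    induction N with
    | zero => simp
    | succ N ih =>
      rw [Finset.sum_range_succ, ih, us]
      push_cast
      have h2 : (N : ℝ) + x ≠ 0 := by positivity
      have h3 : (N : ℝ) + x + 1 ≠ 0 := by positivity
      have h4 : (N : ℝ) + 1 + x ≠ 0 := by positivity
      field_simp
      ring
  simp only [h1]
  have h2 : Tendsto (fun N : ℕ => 1 / ((N : ℝ) + x)) atTop (𝓝 0) := by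
    have h3 : Tendsto (fun N : ℕ => (N : ℝ) + x) atTop atTop :=
      tendsto_atTop_add_const_right _ _ tendsto_natCast_atTop_atTop
    simp only [one_div]
    exact h3.inv_tendsto_atTop
  simpa using (tendsto_const_nhds (x := 1 / x)).sub h2

theorem norm_inv_le {δ : ℝ} (hδ : 0 < δ) (m : ℕ) (z : ℂ) (hz : δ ≤ z.re) (n : ℕ) :
    ‖1 / ((m : ℂ) + z) ^ n‖ ≤ (max 1 (1 / δ)) ^ n ∧
      ∀ k ≤ n, ‖1 / ((m : ℂ) + z) ^ n‖ ≤ (max 1 (1 / δ)) ^ (n - k) * (1 / ((m : ℝ) + z.re)) ^ k := by
  have hx : 0 < (m : ℝ) + z.re := by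
    have : (0 : ℝ) ≤ m := Nat.cast_nonneg m
    linarith
  have h1 : (m : ℝ) + z.re ≤ ‖(m : ℂ) + z‖ := by
    refine le_trans ?_ (Complex.re_le_norm _)
    simp
  have h2 : ‖1 / ((m : ℂ) + z) ^ n‖ ≤ (1 / ((m : ℝ) + z.re)) ^ n := by
    rw [norm_div, norm_one, norm_pow, one_div_pow]
    exact one_div_le_one_div_of_le (by positivity) (pow_le_pow_left₀ hx.le h1 n)
  have h3 : 1 / ((m : ℝ) + z.re) ≤ max 1 (1 / δ) := by
    refine le_trans ?_ (le_max_right _ _)
    refine one_div_le_one_div_of_le hδ ?_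
    have : (0 : ℝ) ≤ m := Nat.cast_nonneg m
    linarith
  have h4 : 0 ≤ 1 / ((m : ℝ) + z.re) := by positivity
  refine ⟨h2.trans (pow_le_pow_left₀ h4 h3 n), fun k hk => h2.trans ?_⟩
  calc (1 / ((m : ℝ) + z.re)) ^ n = (1 / ((m : ℝ) + z.re)) ^ (n - k) * (1 / ((m : ℝ) + z.re)) ^ k := by
        rw [← pow_add, Nat.sub_add_cancel hk]
    _ ≤ _ := mul_le_mul_of_nonneg_right (pow_le_pow_left₀ h4 h3 _) (by positivity)

theorem bound (w : List ℕ) (δ : ℝ) (hδ : 0 < δ) : Adm w → ∃ C : ℝ, 0 ≤ C ∧
    (∀ s w', w = s :: w' → ∀ (m : ℕ) (z : ℂ), δ ≤ z.re →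
      ‖1 / ((m : ℂ) + z) ^ s * mzc w' ((m : ℂ) + z + 1)‖ ≤ C * us m z.re) ∧
    (w ≠ [] → ∀ z : ℂ, δ ≤ z.re → ‖mzc w z‖ ≤ C / z.re) := by
  induction w with
  | nil =>
    intro _
    refine ⟨0, le_rfl, ?_, fun h => absurd rfl h⟩
    intro s w' h
    exact absurd h (List.cons_ne_nil s w').symm
  | cons s w ih =>
    intro hw
    have hterm : ∃ C : ℝ, 0 ≤ C ∧ ∀ (m : ℕ) (z : ℂ), δ ≤ z.re →
        ‖1 / ((m : ℂ) + z) ^ s * mzc w ((m : ℂ) + z + 1)‖ ≤ C * us m z.re := by
      obtain ⟨C', hC', -, hB⟩ := ih hw.tail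
      rcases w with _ | ⟨t, w⟩
      · have hs : 2 ≤ s := hw
        refine ⟨(max 1 (1 / δ)) ^ (s - 2) * (1 + 1 / δ), by positivity, ?_⟩
        intro m z hz
        have hm : (0 : ℝ) ≤ m := Nat.cast_nonneg m
        have hx : 0 < (m : ℝ) + z.re := by linarith
        rw [mzc, mul_one]
        refine ((norm_inv_le hδ m z hz s).2 2 hs).trans ?_
        rw [mul_assoc]
        refine mul_le_mul_of_nonneg_left ?_ (by positivity)
        have h1 : (1 / ((m : ℝ) + z.re)) ^ 2 = (1 + 1 / ((m : ℝ) + z.re)) * us m z.re := by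
          unfold us
          field_simp
        rw [h1]
        refine mul_le_mul_of_nonneg_right ?_ (us_nonneg m (by linarith))
        have h2 : 1 / ((m : ℝ) + z.re) ≤ 1 / δ := one_div_le_one_div_of_le hδ (by linarith)
        linarith
      · have hs : 1 ≤ s := hw.pos
        refine ⟨(max 1 (1 / δ)) ^ (s - 1) * C', by positivity, ?_⟩
        intro m z hz
        have hm : (0 : ℝ) ≤ m := Nat.cast_nonneg m
        have hx : 0 < (m : ℝ) + z.re := by linarith
        have h1 := hB (List.cons_ne_nil t w) ((m : ℂ) + z + 1) (by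
          simp only [Complex.add_re, Complex.natCast_re, Complex.one_re]
          linarith)
        have h2 : ((m : ℂ) + z + 1).re = (m : ℝ) + z.re + 1 := by simp
        rw [h2] at h1
        rw [norm_mul]
        calc ‖1 / ((m : ℂ) + z) ^ s‖ * ‖mzc (t :: w) ((m : ℂ) + z + 1)‖
            ≤ ((max 1 (1 / δ)) ^ (s - 1) * (1 / ((m : ℝ) + z.re)) ^ 1) * (C' / ((m : ℝ) + z.re + 1)) :=
              mul_le_mul ((norm_inv_le hδ m z hz s).2 1 hs) h1 (norm_nonneg _) (by positivity)
          _ = (max 1 (1 / δ)) ^ (s - 1) * C' * us m z.re := by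
              unfold us
              rw [pow_one]
              field_simp
    obtain ⟨C, hC, hb⟩ := hterm
    refine ⟨C, hC, ?_, ?_⟩
    · intro s' w' h
      obtain ⟨rfl, rfl⟩ := List.cons.inj h
      exact hb
    · intro _ z hz
      have hx : 0 < z.re := by linarith
      rw [mzc]
      have h1 := (hasSum_us hx).mul_left C
      have h2 := tsum_of_norm_bounded h1 (fun m => hb m z hz)
      refine h2.trans (le_of_eq ?_)
      rw [mul_one_div]

theorem summable_term {s : ℕ} {w : List ℕ} (hw : Adm (s :: w)) (z : ℂ) (hz : 0 < z.re) :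
    Summable fun m : ℕ => 1 / ((m : ℂ) + z) ^ s * mzc w ((m : ℂ) + z + 1) := by
  obtain ⟨C, -, hb, -⟩ := bound (s :: w) z.re hz hw
  exact Summable.of_norm_bounded ((hasSum_us hz).summable.mul_left C) fun m => hb s w rfl m z le_rfl

theorem mzc_shift {s : ℕ} {w : List ℕ} (hw : Adm (s :: w)) (z : ℂ) (hz : 0 < z.re) :
    mzc (s :: w) (z + 1) = mzc (s :: w) z - 1 / z ^ s * mzc w (z + 1) := by
  have h1 := (summable_term hw z hz).tsum_eq_zero_add
  rw [mzc, mzc, h1]
  simp only [Nat.cast_zero, zero_add]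
  rw [add_sub_cancel_left]
  refine tsum_congr fun m => ?_
  push_cast
  rw [show (m : ℂ) + (z + 1) = (m : ℂ) + 1 + z by ring]

theorem mzc_diff (w : List ℕ) : Adm w → DifferentiableOn ℂ (mzc w) {z : ℂ | 0 < z.re} := by
  induction w with
  | nil =>
    intro _
    have h1 : mzc [] = fun _ => 1 := by
      funext z
      rw [mzc]
    rw [h1]
    exact differentiableOn_const _
  | cons s w ih =>
    intro hw z0 hz0
    have hz0' : 0 < z0.re := hz0
    set δ := z0.re / 2 with hδ
    have hδ0 : 0 < δ := by positivity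
    obtain ⟨C, hC, hb, -⟩ := bound (s :: w) δ hδ0 hw
    have hopen : IsOpen {z : ℂ | δ < z.re} := isOpen_lt continuous_const Complex.continuous_re
    have h1 : DifferentiableOn ℂ (fun z => ∑' m : ℕ, 1 / ((m : ℂ) + z) ^ s * mzc w ((m : ℂ) + z + 1))
        {z : ℂ | δ < z.re} := by
      refine Complex.differentiableOn_tsum_of_summable_norm ((hasSum_us hδ0).summable.mul_left C) ?_ hopen ?_
      · intro m z hz
        have hz' : δ < z.re := hz
        have hne : (m : ℂ) + z ≠ 0 := by
          intro h2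
          have h3 := congrArg Complex.re h2
          simp only [Complex.add_re, Complex.natCast_re, Complex.zero_re] at h3
          have h5 : (0 : ℝ) ≤ m := Nat.cast_nonneg m
          linarith
        have hd : DifferentiableAt ℂ (mzc w) ((m : ℂ) + z + 1) := by
          refine (ih hw.tail).differentiableAt ?_
          refine (isOpen_lt continuous_const Complex.continuous_re).mem_nhds ?_
          show 0 < ((m : ℂ) + z + 1).re
          simp only [Complex.add_re, Complex.natCast_re, Complex.one_re]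
          have h5 : (0 : ℝ) ≤ m := Nat.cast_nonneg m
          linarith
        refine DifferentiableAt.differentiableWithinAt ?_
        refine DifferentiableAt.mul ?_ ?_
        · refine (differentiableAt_const _).div ?_ (pow_ne_zero _ hne)
          exact ((differentiableAt_const _).add differentiableAt_id).pow _
        · have h6 : DifferentiableAt ℂ (fun z : ℂ => (m : ℂ) + z + 1) z :=
            ((differentiableAt_const _).add differentiableAt_id).add (differentiableAt_const _)
          exact DifferentiableAt.comp z hd h6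
      · intro m z hz
        have hz' : δ < z.re := hz
        exact (hb s w rfl m z hz'.le).trans (mul_le_mul_of_nonneg_left (us_anti m hδ0 hz'.le) hC)
    have h2 : mzc (s :: w) = fun z => ∑' m : ℕ, 1 / ((m : ℂ) + z) ^ s * mzc w ((m : ℂ) + z + 1) := by
      funext z
      rw [mzc]
    rw [h2]
    refine DifferentiableAt.differentiableWithinAt ?_
    refine h1.differentiableAt (hopen.mem_nhds ?_)
    show δ < z0.re
    rw [hδ]
    linarith

theorem mhz_an (w : List ℕ) (hw : Adm w) : AnalyticOnNhd ℝ (mhz w) (Ioi 0) := by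
  intro x hx
  have h1 : AnalyticAt ℂ (mzc w) (x : ℂ) :=
    (mzc_diff w hw).analyticAt ((isOpen_lt continuous_const Complex.continuous_re).mem_nhds (by simpa using hx))
  have h2 : AnalyticAt ℝ (fun t : ℝ => mzc w (t : ℂ)) x :=
    (h1.restrictScalars (𝕜 := ℝ)).comp (g := mzc w) (f := fun t : ℝ => (t : ℂ)) (Complex.ofRealCLM.analyticAt x)
  have h3 : AnalyticAt ℝ (fun t : ℝ => (mzc w (t : ℂ)).re) x := (Complex.reCLM.analyticAt _).comp h2
  refine h3.congr (Filter.Eventually.of_forall fun t => ?_)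
  show (mzc w (t : ℂ)).re = mhz w t
  rw [mzc_ofReal, Complex.ofReal_re]

theorem mhz_shift {s : ℕ} {w : List ℕ} (hw : Adm (s :: w)) (x : ℝ) (hx : 0 < x) :
    mhz (s :: w) (x + 1) = mhz (s :: w) x - 1 / x ^ s * mhz w (x + 1) := by
  have h1 := mzc_shift hw (x : ℂ) (by simpa using hx)
  have h2 : ((x : ℂ) + 1) = ((x + 1 : ℝ) : ℂ) := by push_cast; rfl
  rw [h2, mzc_ofReal, mzc_ofReal, mzc_ofReal] at h1
  exact_mod_cast h1

theorem mhz_lim (w : List ℕ) (hw : Adm w) (hne : w ≠ []) (x : ℝ) (hx : 0 < x) :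
    Tendsto (fun N : ℕ => mhz w (x + N)) atTop (𝓝 0) := by
  obtain ⟨C, hC, -, hB⟩ := bound w x hx hw
  have h1 : ∀ N : ℕ, ‖mhz w (x + N)‖ ≤ C * (1 / ((N : ℝ) + x)) := by
    intro N
    have h2 := hB hne ((x + N : ℝ) : ℂ) (by
      rw [Complex.ofReal_re]
      have : (0 : ℝ) ≤ N := Nat.cast_nonneg N
      linarith)
    rw [mzc_ofReal, Complex.norm_real, Complex.ofReal_re] at h2
    refine h2.trans (le_of_eq ?_)
    rw [mul_one_div, add_comm]
  refine squeeze_zero_norm h1 ?_
  have h3 : Tendsto (fun N : ℕ => (N : ℝ) + x) atTop atTop :=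
    tendsto_atTop_add_const_right _ _ tendsto_natCast_atTop_atTop
  have h4 : Tendsto (fun N : ℕ => 1 / ((N : ℝ) + x)) atTop (𝓝 0) := by
    simp only [one_div]
    exact h3.inv_tendsto_atTop
  simpa using h4.const_mul C

/-- the value of a combination of words -/
noncomputable def Ev : (List ℕ →₀ ℝ) →+ (ℝ → ℝ) :=
  Finsupp.liftAddHom fun w =>
    { toFun := fun r x => r * mhz w x
      map_zero' := by funext x; simp
      map_add' := fun r s => by funext x; simp [add_mul] }

theorem Ev_single (w : List ℕ) (r x : ℝ) : Ev (Finsupp.single w r) x = r * mhz w x := by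
  rw [Ev, Finsupp.liftAddHom_apply, Finsupp.sum_single_index]
  · rfl
  · exact map_zero _

theorem Ev_apply (c : List ℕ →₀ ℝ) (x : ℝ) : Ev c x = ∑ w ∈ c.support, c w * mhz w x := by
  rw [Ev, Finsupp.liftAddHom_apply, Finsupp.sum, Finset.sum_apply]
  rfl

/-- a letter in front of the words -/
noncomputable def pre (s : ℕ) (c : List ℕ →₀ ℝ) : List ℕ →₀ ℝ := c.mapDomain (List.cons s)

theorem pre_supp (s : ℕ) (c : List ℕ →₀ ℝ) (w : List ℕ) (hw : w ∈ (pre s c).support) :
    ∃ v ∈ c.support, w = s :: v := by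
  classical
  have h1 := Finsupp.mapDomain_support hw
  obtain ⟨v, hv, h⟩ := Finset.mem_image.1 h1
  exact ⟨v, hv, h.symm⟩

theorem Ev_pre (s : ℕ) (c : List ℕ →₀ ℝ) (x : ℝ) :
    Ev (pre s c) x = ∑ w ∈ c.support, c w * mhz (s :: w) x := by
  classical
  rw [Ev_apply, pre]
  have h1 := Finsupp.sum_mapDomain_index_inj (f := List.cons s) (s := c)
    (h := fun (w : List ℕ) (r : ℝ) => r * mhz w x) (List.cons_injective)
  exact h1

theorem Ev_pre_shift (s : ℕ) (c : List ℕ →₀ ℝ) (hc : ∀ w ∈ c.support, Adm (s :: w)) (x : ℝ) (hx : 0 < x) :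
    Ev (pre s c) (x + 1) = Ev (pre s c) x - 1 / x ^ s * Ev c (x + 1) := by
  rw [Ev_pre, Ev_pre, Ev_apply, Finset.mul_sum, ← Finset.sum_sub_distrib]
  refine Finset.sum_congr rfl fun w hw => ?_
  rw [mhz_shift (hc w hw) x hx]
  ring

theorem Ev_lim (c : List ℕ →₀ ℝ) (hc : ∀ w ∈ c.support, Adm w ∧ w ≠ []) (x : ℝ) (hx : 0 < x) :
    Tendsto (fun N : ℕ => Ev c (x + N)) atTop (𝓝 0) := by
  have h1 : (fun N : ℕ => Ev c (x + N)) = fun N : ℕ => ∑ w ∈ c.support, c w * mhz w (x + N) := by
    funext N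
    rw [Ev_apply]
  rw [h1]
  have h2 : Tendsto (fun N : ℕ => ∑ w ∈ c.support, c w * mhz w (x + N)) atTop (𝓝 (∑ w ∈ c.support, c w * 0)) :=
    tendsto_finsetSum _ fun w hw => (mhz_lim w (hc w hw).1 (hc w hw).2 x hx).const_mul _
  simpa using h2

/-- **The product formula.** -/
theorem product (n : ℕ) : ∀ u v : List ℕ, Adm u → Adm v → u.length + v.length ≤ n →
    ∃ c : List ℕ →₀ ℝ, (∀ w ∈ c.support, Adm w) ∧ ((u ≠ [] ∨ v ≠ []) → ∀ w ∈ c.support, w ≠ []) ∧
      ∀ x : ℝ, 0 < x → mhz u x * mhz v x = Ev c x := by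
  classical
  induction n with
  | zero =>
    intro u v hu hv hn
    have hu0 : u = [] := List.eq_nil_of_length_eq_zero (by omega)
    have hv0 : v = [] := List.eq_nil_of_length_eq_zero (by omega)
    subst hu0
    subst hv0
    refine ⟨Finsupp.single [] 1, ?_, ?_, ?_⟩
    · intro w hw
      have h1 := Finset.mem_singleton.1 (Finsupp.support_single_subset hw)
      rw [h1]
      trivial
    · rintro (h | h) <;> exact absurd rfl h
    · intro x _
      rw [Ev_single, mhz]
  | succ n ih =>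
    intro u v hu hv hn
    rcases u with _ | ⟨s, u⟩
    · refine ⟨Finsupp.single v 1, ?_, ?_, ?_⟩
      · intro w hw
        rw [Finset.mem_singleton.1 (Finsupp.support_single_subset hw)]
        exact hv
      · rintro (h | h)
        · exact absurd rfl h
        · intro w hw
          rw [Finset.mem_singleton.1 (Finsupp.support_single_subset hw)]
          exact h
      · intro x _
        rw [Ev_single, mhz]
    rcases v with _ | ⟨t, v⟩
    · refine ⟨Finsupp.single (s :: u) 1, ?_, ?_, ?_⟩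
      · intro w hw
        rw [Finset.mem_singleton.1 (Finsupp.support_single_subset hw)]
        exact hu
      · intro _ w hw
        rw [Finset.mem_singleton.1 (Finsupp.support_single_subset hw)]
        exact List.cons_ne_nil _ _
      · intro x _
        rw [Ev_single, mul_comm, mhz]
    simp only [List.length_cons] at hn
    obtain ⟨c1, h1a, h1n, h1⟩ := ih u (t :: v) hu.tail hv (by simp only [List.length_cons]; omega)
    obtain ⟨c2, h2a, h2n, h2⟩ := ih (s :: u) v hu hv.tail (by simp only [List.length_cons]; omega)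
    obtain ⟨c3, h3a, -, h3⟩ := ih u v hu.tail hv.tail (by omega)
    have h1n' := h1n (Or.inr (List.cons_ne_nil _ _))
    have h2n' := h2n (Or.inl (List.cons_ne_nil _ _))
    have hs := hu.pos
    have ht := hv.pos
    have ad1 : ∀ w ∈ c1.support, Adm (s :: w) := fun w hw => (h1a w hw).cons hs (h1n' w hw)
    have ad2 : ∀ w ∈ c2.support, Adm (t :: w) := fun w hw => (h2a w hw).cons ht (h2n' w hw)
    have ad3 : ∀ w ∈ c3.support, Adm ((s + t) :: w) := fun w hw => (h3a w hw).cons2 (by omega)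
    set R : List ℕ →₀ ℝ := pre s c1 + pre t c2 + pre (s + t) c3 with hR
    have hRs : ∀ w ∈ R.support, Adm w ∧ w ≠ [] := by
      intro w hw
      rcases Finset.mem_union.1 (Finsupp.support_add hw) with hw | hw
      · rcases Finset.mem_union.1 (Finsupp.support_add hw) with hw | hw
        · obtain ⟨v', hv', rfl⟩ := pre_supp _ _ _ hw
          exact ⟨ad1 v' hv', List.cons_ne_nil _ _⟩
        · obtain ⟨v', hv', rfl⟩ := pre_supp _ _ _ hw
          exact ⟨ad2 v' hv', List.cons_ne_nil _ _⟩
      · obtain ⟨v', hv', rfl⟩ := pre_supp _ _ _ hw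
        exact ⟨ad3 v' hv', List.cons_ne_nil _ _⟩
    refine ⟨R, fun w hw => (hRs w hw).1, fun _ w hw => (hRs w hw).2, ?_⟩
    intro x hx
    set D : ℝ → ℝ := fun y => mhz (s :: u) y * mhz (t :: v) y - Ev R y with hD
    have hstep : ∀ y : ℝ, 0 < y → D (y + 1) = D y := by
      intro y hy
      have hy1 : 0 < y + 1 := by linarith
      have e1 := mhz_shift hu y hy
      have e2 := mhz_shift hv y hy
      have e3 : Ev R (y + 1) = Ev R y - (1 / y ^ s * Ev c1 (y + 1) + 1 / y ^ t * Ev c2 (y + 1) +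
          1 / y ^ (s + t) * Ev c3 (y + 1)) := by
        rw [hR, map_add, map_add]
        simp only [Pi.add_apply]
        rw [Ev_pre_shift s c1 ad1 y hy, Ev_pre_shift t c2 ad2 y hy, Ev_pre_shift (s + t) c3 ad3 y hy]
        ring
      rw [← h1 _ hy1, ← h2 _ hy1, ← h3 _ hy1] at e3
      have e1' : mhz (s :: u) y = mhz (s :: u) (y + 1) + 1 / y ^ s * mhz u (y + 1) := by linarith
      have e2' : mhz (t :: v) y = mhz (t :: v) (y + 1) + 1 / y ^ t * mhz v (y + 1) := by linarith
      simp only [hD]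
      rw [e3, e1', e2', pow_add]
      field_simp
      ring
    have hper : ∀ N : ℕ, D (x + N) = D x := by
      intro N
      induction N with
      | zero => simp
      | succ N ihN =>
        have h4 : x + ((N + 1 : ℕ) : ℝ) = x + N + 1 := by push_cast; ring
        rw [h4, hstep _ (by positivity), ihN]
    have hlim : Tendsto (fun N : ℕ => D (x + N)) atTop (𝓝 0) := by
      have h5 := (mhz_lim _ hu (List.cons_ne_nil _ _) x hx).mul (mhz_lim _ hv (List.cons_ne_nil _ _) x hx)
      have h6 := h5.sub (Ev_lim R hRs x hx)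
      simpa using h6
    have h7 : Tendsto (fun _ : ℕ => D x) atTop (𝓝 0) := by
      refine hlim.congr fun N => hper N
    have h8 := tendsto_nhds_unique h7 tendsto_const_nhds
    have h9 : mhz (s :: u) x * mhz (t :: v) x - Ev R x = 0 := h8.symm
    linarith

end Pool.Agent.Y294.LR
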