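import Mathlib

/-!
# Linear independence of iterated sums

`H_[] = 1` and `τ H_(i w) = H_(i w) - a_i τ H_w`, where `τ` is compatible with the endomorphism `σ` of the field `K`. If no
nontrivial combination of the `a_i` with invariant coefficients is of the form `σ v - v`, then the `H_w` are linearly
independent over `K`.
-/

set_option autoImplicit false

namespace Pool.Agent.Y294.LR

variable {K G I : Type} [Field K] [CommRing G]

open Finsupp

/-- the expansion of `τ H_w` -/
noncomputable def Ew (a : I → K) : List I → (List I →₀ K)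
  | [] => single [] 1
  | i :: w => single (i :: w) 1 - a i • Ew a w

theorem Ew_supp (a : I → K) (w v : List I) (h : Ew a w v ≠ 0) : v <:+ w := by
  classical
  induction w with
  | nil =>
    by_contra hne
    apply h
    have h1 : v ≠ [] := fun h1 => hne (by rw [h1])
    rw [Ew, single_apply, if_neg fun h2 => h1 h2.symm]
  | cons i w ih =>
    by_cases hv : v = i :: w
    · rw [hv]
    · have h1 : Ew a (i :: w) v = - (a i * Ew a w v) := by
        rw [Ew, Finsupp.sub_apply, single_apply, if_neg fun h2 => hv h2.symm, zero_sub, Finsupp.smul_apply,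
          smul_eq_mul]
      rw [h1] at h
      have h2 : Ew a w v ≠ 0 := fun h3 => h (by rw [h3, mul_zero, neg_zero])
      exact (ih h2).trans (List.suffix_cons i w)

theorem Ew_zero (a : I → K) (w v : List I) (h : ¬ v <:+ w) : Ew a w v = 0 := by
  by_contra h1
  exact h (Ew_supp a w v h1)

theorem Ew_self (a : I → K) (w : List I) : Ew a w w = 1 := by
  classical
  cases w with
  | nil => rw [Ew, single_apply, if_pos rfl]
  | cons i w =>
    have h1 : ¬ (i :: w) <:+ w := fun h => by
      have := h.length_le
      simp at this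
    rw [Ew, Finsupp.sub_apply, single_apply, if_pos rfl, Finsupp.smul_apply, smul_eq_mul, Ew_zero a w _ h1,
      mul_zero, sub_zero]

theorem Ew_tail (a : I → K) (i : I) (w : List I) : Ew a (i :: w) w = - a i := by
  classical
  have h1 : i :: w ≠ w := fun h => by
    have := congrArg List.length h
    simp at this
  rw [Ew, Finsupp.sub_apply, single_apply, if_neg h1, zero_sub, Finsupp.smul_apply, smul_eq_mul, Ew_self, mul_one]

/-- evaluation -/
noncomputable def Lw (Φ : K →+* G) (Hg : List I → G) : (List I →₀ K) →+ G :=
  Finsupp.liftAddHom fun w => (AddMonoidHom.mulRight (Hg w)).comp (Φ : K →+ G)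

theorem Lw_single (Φ : K →+* G) (Hg : List I → G) (w : List I) (x : K) : Lw Φ Hg (single w x) = Φ x * Hg w := by
  simp [Lw]

theorem Lw_smul (Φ : K →+* G) (Hg : List I → G) (x : K) (c : List I →₀ K) : Lw Φ Hg (x • c) = Φ x * Lw Φ Hg c := by
  classical
  induction c using Finsupp.induction_linear with
  | zero => simp
  | add c d hc hd => rw [smul_add, map_add, map_add, hc, hd, mul_add]
  | single w y => rw [smul_single, Lw_single, Lw_single, smul_eq_mul, map_mul, mul_assoc]

theorem Lw_apply (Φ : K →+* G) (Hg : List I → G) (c : List I →₀ K) :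
    Lw Φ Hg c = ∑ w ∈ c.support, Φ (c w) * Hg w := by
  rw [Lw, Finsupp.liftAddHom_apply, Finsupp.sum]
  rfl

/-- the transform of a relation -/
noncomputable def Tw (σ : K →+* K) (a : I → K) (c : List I →₀ K) : List I →₀ K :=
  ∑ w ∈ c.support, σ (c w) • Ew a w

theorem Tw_apply (σ : K →+* K) (a : I → K) (c : List I →₀ K) (v : List I) :
    Tw σ a c v = ∑ w ∈ c.support, σ (c w) * Ew a w v := by
  rw [Tw, Finsupp.finsetSum_apply]
  exact Finset.sum_congr rfl fun w _ => by rw [Finsupp.smul_apply, smul_eq_mul]

variable (σ : K →+* K) (Φ : K →+* G) (τ : G →+* G) (a : I → K) (Hg : List I → G) (Adm : List I → Prop)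

theorem τ_Lw (hτ : ∀ x, τ (Φ x) = Φ (σ x)) (h0 : Hg [] = 1)
    (hA : ∀ i w, Adm (i :: w) → Adm w)
    (hs : ∀ i w, Adm (i :: w) → τ (Hg (i :: w)) = Hg (i :: w) - Φ (a i) * τ (Hg w)) :
    ∀ c : List I →₀ K, (∀ w ∈ c.support, Adm w) → τ (Lw Φ Hg c) = Lw Φ Hg (Tw σ a c) := by
  classical
  have h1 : ∀ w, Adm w → τ (Hg w) = Lw Φ Hg (Ew a w) := by
    intro w
    induction w with
    | nil =>
      intro _
      rw [h0, map_one, Ew, Lw_single, map_one, h0, mul_one]
    | cons i w ih =>
      intro hw
      rw [hs i w hw, ih (hA i w hw), Ew, map_sub, Lw_single, map_one, one_mul, Lw_smul]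
  intro c hc
  rw [Lw_apply, Tw, map_sum, map_sum]
  refine Finset.sum_congr rfl fun w hw => ?_
  rw [map_mul, hτ, h1 w (hc w hw), Lw_smul]

theorem Tw_supp (hA : ∀ i w, Adm (i :: w) → Adm w) (n : ℕ) (c : List I →₀ K)
    (hc : ∀ w ∈ c.support, Adm w ∧ w.length ≤ n) : ∀ v ∈ (Tw σ a c).support, Adm v ∧ v.length ≤ n := by
  classical
  have hsuf : ∀ w v : List I, v <:+ w → Adm w → Adm v := by
    intro w v h
    obtain ⟨u, rfl⟩ := h
    induction u with
    | nil => exact fun h => h
    | cons i u ih => exact fun h => ih (hA i _ h)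
  intro v hv
  rw [Finsupp.mem_support_iff, Tw_apply] at hv
  obtain ⟨w, hw, hne⟩ := Finset.exists_ne_zero_of_sum_ne_zero hv
  have h1 : Ew a w v ≠ 0 := fun h => hne (by rw [h, mul_zero])
  have h2 := Ew_supp a w v h1
  obtain ⟨h3, h4⟩ := hc w hw
  exact ⟨hsuf w v h2 h3, h2.length_le.trans h4⟩

theorem Tw_top (n : ℕ) (c : List I →₀ K) (hc : ∀ w ∈ c.support, w.length ≤ n) (v : List I) (hv : v.length = n) :
    Tw σ a c v = σ (c v) := by
  classical
  rw [Tw_apply]
  have h1 : ∀ w ∈ c.support, w ≠ v → σ (c w) * Ew a w v = 0 := by
    intro w hw hne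
    rw [Ew_zero a w v, mul_zero]
    intro h
    exact hne (h.eq_of_length_le (by rw [hv]; exact hc w hw)).symm
  by_cases hvs : v ∈ c.support
  · rw [Finset.sum_eq_single v h1 (fun h => absurd hvs h), Ew_self, mul_one]
  · rw [Finset.sum_eq_zero fun w hw => h1 w hw (fun h => hvs (h ▸ hw)), Finsupp.notMem_support_iff.1 hvs, map_zero]

theorem Tw_next (n : ℕ) (c : List I →₀ K) (hc : ∀ w ∈ c.support, w.length ≤ n + 1) (v : List I)
    (hv : v.length = n) :
    Tw σ a c v = σ (c v) -
      (c.comapDomain (fun i => i :: v) (fun i _ j _ h => (List.cons.inj h).1)).sum fun i x => σ x * a i := by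
  classical
  set d := c.comapDomain (fun i => i :: v) (fun i _ j _ h => (List.cons.inj h).1) with hd
  have hd' : ∀ i, d i = c (i :: v) := fun i => rfl
  rw [Tw_apply, Finsupp.sum]
  have h2 : ∀ w ∈ c.support, Ew a w v ≠ 0 → w = v ∨ ∃ i, w = i :: v := by
    intro w hw hne
    obtain ⟨u, hu⟩ := Ew_supp a w v hne
    have h3 := hc w hw
    rw [← hu, List.length_append, hv] at h3
    rcases u with _ | ⟨i, u⟩
    · left
      rw [← hu]
      rfl
    · right
      have h4 : u = [] := by
        rw [List.length_cons] at h3
        exact List.eq_nil_of_length_eq_zero (by omega)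
      exact ⟨i, by rw [← hu, h4]; rfl⟩
  have h5 : ∑ w ∈ c.support, σ (c w) * Ew a w v =
      ∑ w ∈ insert v (d.support.image fun i => i :: v), σ (c w) * Ew a w v := by
    have h6 : ∀ w ∈ c.support ∪ insert v (d.support.image fun i => i :: v), w ∉ c.support →
        σ (c w) * Ew a w v = 0 := by
      intro w _ hw
      rw [Finsupp.notMem_support_iff.1 hw, map_zero, zero_mul]
    have h7 : ∀ w ∈ c.support ∪ insert v (d.support.image fun i => i :: v),
        w ∉ insert v (d.support.image fun i => i :: v) → σ (c w) * Ew a w v = 0 := by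
      intro w hw hw'
      by_contra hne
      have hne' : Ew a w v ≠ 0 := fun h => hne (by rw [h, mul_zero])
      have hcw : c w ≠ 0 := fun h => hne (by rw [h, map_zero, zero_mul])
      have hwc : w ∈ c.support := Finsupp.mem_support_iff.2 hcw
      rcases h2 w hwc hne' with rfl | ⟨i, rfl⟩
      · exact hw' (Finset.mem_insert_self _ _)
      · apply hw'
        refine Finset.mem_insert_of_mem (Finset.mem_image.2 ⟨i, ?_, rfl⟩)
        rw [Finsupp.mem_support_iff, hd']
        exact hcw
    rw [Finset.sum_subset Finset.subset_union_left h6, Finset.sum_subset Finset.subset_union_right h7]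
  rw [h5, Finset.sum_insert, Ew_self, mul_one, Finset.sum_image]
  · rw [sub_eq_add_neg, ← Finset.sum_neg_distrib]
    congr 1
    refine Finset.sum_congr rfl fun i _ => ?_
    rw [Ew_tail, hd', mul_neg]
  · intro i _ j _ h
    exact (List.cons.inj h).1
  · intro h
    obtain ⟨i, -, hi⟩ := Finset.mem_image.1 h
    have := congrArg List.length hi
    simp at this

/-- **Linear independence.** -/
theorem words_indep (hΦ : Function.Injective Φ) (hτ : ∀ x, τ (Φ x) = Φ (σ x)) (h0 : Hg [] = 1)
    (hA : ∀ i w, Adm (i :: w) → Adm w)
    (hs : ∀ i w, Adm (i :: w) → τ (Hg (i :: w)) = Hg (i :: w) - Φ (a i) * τ (Hg w))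
    (hadd : ∀ (c : I →₀ K) (v : K), (∀ i, c i ≠ 0 → ∃ w, Adm (i :: w)) → (∀ i, σ (c i) = c i) →
      (c.sum fun i x => x * a i) = σ v - v → c = 0)
    (c : List I →₀ K) (hc : ∀ w ∈ c.support, Adm w) (h : Lw Φ Hg c = 0) : c = 0 := by
  classical
  have key : ∀ n m : ℕ, ∀ c : List I →₀ K, (∀ w ∈ c.support, Adm w ∧ w.length ≤ n) →
      (c.support.filter fun w => w.length = n).card ≤ m → Lw Φ Hg c = 0 → c = 0 := by
    intro n
    induction n with
    | zero =>
      intro m c hc _ hL
      have h1 : c = single [] (c []) := by
        ext w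
        by_cases hw : w = []
        · rw [hw, single_apply, if_pos rfl]
        · rw [single_apply, if_neg fun h => hw h.symm]
          by_contra hne
          have := (hc w (Finsupp.mem_support_iff.2 hne)).2
          exact hw (List.eq_nil_of_length_eq_zero (by omega))
      rw [h1, Lw_single, h0, mul_one] at hL
      have h2 : c [] = 0 := hΦ (hL.trans (map_zero Φ).symm)
      rw [h1, h2, single_zero]
    | succ n ihn =>
      intro m
      induction m with
      | zero =>
        intro c hc hm hL
        have h1 : c.support.filter (fun w => w.length = n + 1) = ∅ := Finset.card_eq_zero.1 (Nat.le_zero.1 hm)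
        refine ihn (c.support.filter fun w => w.length = n).card c (fun w hw => ⟨(hc w hw).1, ?_⟩) le_rfl hL
        have h2 := (hc w hw).2
        by_contra h3
        have h4 : w ∈ c.support.filter (fun w => w.length = n + 1) :=
          Finset.mem_filter.2 ⟨hw, by omega⟩
        rw [h1] at h4
        simp at h4
      | succ m ihm =>
        intro c hc hm hL
        rcases (c.support.filter fun w => w.length = n + 1).eq_empty_or_nonempty with hemp | ⟨w0, hw0⟩
        · exact ihm c hc (by rw [hemp]; simp) hL
        exfalso
        obtain ⟨hw0s, hw0l⟩ := Finset.mem_filter.1 hw0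
        have hcw : c w0 ≠ 0 := Finsupp.mem_support_iff.1 hw0s
        set c0 : List I →₀ K := (c w0)⁻¹ • c with hc0
        have hc0w : c0 w0 = 1 := by
          rw [hc0, Finsupp.smul_apply, smul_eq_mul, inv_mul_cancel₀ hcw]
        have hsupp : c0.support ⊆ c.support := Finsupp.support_smul
        have hL0 : Lw Φ Hg c0 = 0 := by rw [hc0, Lw_smul, hL, mul_zero]
        have hc0s : ∀ w ∈ c0.support, Adm w ∧ w.length ≤ n + 1 := fun w hw => hc w (hsupp hw)
        have hT := τ_Lw σ Φ τ a Hg Adm hτ h0 hA hs c0 (fun w hw => (hc0s w hw).1)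
        rw [hL0, map_zero] at hT
        have hTs := Tw_supp σ a Adm hA (n + 1) c0 hc0s
        have htop := Tw_top σ a (n + 1) c0 (fun w hw => (hc0s w hw).2)
        have hz : Tw σ a c0 - c0 = 0 := by
          refine ihm _ ?_ ?_ ?_
          · intro w hw
            rcases Finset.mem_union.1 (Finsupp.support_sub hw) with h1 | h1
            · exact hTs w h1
            · exact hc0s w h1
          · have hlt : ((Tw σ a c0 - c0).support.filter fun w => w.length = n + 1) ⊂
                (c.support.filter fun w => w.length = n + 1) := by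
              rw [Finset.ssubset_iff_of_subset]
              · refine ⟨w0, hw0, fun h1 => ?_⟩
                have h2 := (Finset.mem_filter.1 h1).1
                rw [Finsupp.mem_support_iff, Finsupp.sub_apply, htop w0 hw0l, hc0w, map_one, sub_self] at h2
                exact h2 rfl
              · intro w hw
                obtain ⟨h1, h2⟩ := Finset.mem_filter.1 hw
                refine Finset.mem_filter.2 ⟨?_, h2⟩
                rw [Finsupp.mem_support_iff, Finsupp.sub_apply, htop w h2] at h1
                apply hsupp
                rw [Finsupp.mem_support_iff]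
                intro h3
                rw [h3, map_zero, sub_zero] at h1
                exact h1 rfl
            have := Finset.card_lt_card hlt
            omega
          · rw [map_sub, ← hT, hL0, sub_zero]
        have hinv : ∀ v : List I, v.length = n + 1 → σ (c0 v) = c0 v := by
          intro v hv
          have h1 := DFunLike.congr_fun hz v
          rw [Finsupp.sub_apply, htop v hv, Finsupp.zero_apply, sub_eq_zero] at h1
          exact h1
        -- the word
        obtain ⟨i0, v0, rfl⟩ : ∃ i0 v0, w0 = i0 :: v0 := by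
          rcases w0 with _ | ⟨i, v⟩
          · simp at hw0l
          · exact ⟨i, v, rfl⟩
        have hv0 : v0.length = n := by simpa using hw0l
        have hnext := Tw_next σ a n c0 (fun w hw => (hc0s w hw).2) v0 hv0
        set d := c0.comapDomain (fun i => i :: v0) (fun i _ j _ h => (List.cons.inj h).1) with hd
        have hdi : ∀ i, d i = c0 (i :: v0) := fun i => rfl
        have hdinv : ∀ i, σ (d i) = d i := fun i => by
          rw [hdi]
          exact hinv _ (by rw [List.length_cons, hv0])
        have hd0 : d = 0 := by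
          refine hadd d (c0 v0) (fun i hi => ⟨v0, ?_⟩) hdinv ?_
          · rw [hdi] at hi
            exact (hc0s _ (Finsupp.mem_support_iff.2 hi)).1
          · have h1 := DFunLike.congr_fun hz v0
            rw [Finsupp.sub_apply, hnext, Finsupp.zero_apply] at h1
            have h2 : (d.sum fun i x => σ x * a i) = d.sum fun i x => x * a i := by
              refine Finset.sum_congr rfl fun i _ => ?_
              show σ (d i) * a i = d i * a i
              rw [hdinv]
            rw [h2] at h1
            linear_combination -h1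
        have h3 : d i0 = 1 := hc0w
        rw [hd0, Finsupp.zero_apply] at h3
        exact zero_ne_one h3
  exact key (c.support.sup List.length) _ c (fun w hw => ⟨hc w hw, Finset.le_sup hw⟩) le_rfl h

end Pool.Agent.Y294.LR
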