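import Pool.Agent.Y294.LR.Mhz
import Pool.Agent.Y294.LR.Words
import Pool.Agent.Y294.LR.MultiL
import Pool.Agent.Y294.OS.Hur
import Pool.Agent.TH818.AP.Api

/-!
# Multiple Hurwitz zeta values at rational points
-/

set_option autoImplicit false

open Filter Topology Set

namespace Pool.Agent.Y294.LR

open Pool.Agent.Y294.OS Pool.Agent.TH818.AP Pool.Agent.Y890.UC

/-- the letters -/
noncomputable def aF (s : ℕ) : F :=
  algebraMap (Polynomial ℂ) F (Polynomial.C 1) / algebraMap (Polynomial ℂ) F (Polynomial.X - Polynomial.C 0) ^ s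

theorem aF_add (c : ℕ →₀ F) (v : F) (hc : ∀ i, c i ≠ 0 → 1 ≤ i) (hσ : ∀ i, σF (c i) = c i)
    (h : (c.sum fun i x => x * aF i) = σF v - v) : c = 0 := by
  classical
  set N := c.support.sup id with hN
  have hsup : c.support ⊆ Finset.Ico 1 (N + 1) := by
    intro i hi
    rw [Finset.mem_Ico]
    refine ⟨hc i (Finsupp.mem_support_iff.1 hi), Nat.lt_succ_of_le ?_⟩
    exact Finset.le_sup (f := id) hi
  have h1 : (c.sum fun i x => x * aF i) = ∑ i ∈ Finset.range N, c (i + 1) * aF (i + 1) := by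
    rw [Finsupp.sum, Finset.sum_subset hsup]
    · rw [Finset.sum_Ico_eq_sum_range]
      simp only [Nat.add_sub_cancel, add_comm 1]
    · intro i _ hi
      rw [Finsupp.notMem_support_iff.1 hi, zero_mul]
  have h2 := nd_add (ι := Unit) (w := N) (fun _ => 0) (fun i j hij => absurd (Subsingleton.elim i j) hij)
    (fun _ => 1) (fun _ => one_ne_zero) (fun k => c ((k.2 : ℕ) + 1)) v (fun k => hσ _) (by
      rw [← h, h1, Fintype.sum_prod_type, Fintype.sum_unique, ← Fin.sum_univ_eq_sum_range (fun i => c (i + 1) * aF (i + 1))]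
      refine Finset.sum_congr rfl fun k _ => ?_
      simp only [gF, aF, neg_zero])
  ext i
  rw [Finsupp.zero_apply]
  by_contra hne
  have hi := Finset.mem_Ico.1 (hsup (Finsupp.mem_support_iff.2 hne))
  have h3 := congrFun h2 ((), ⟨i - 1, by omega⟩)
  simp only [Pi.zero_apply] at h3
  rw [Nat.sub_add_cancel hi.1] at h3
  exact hne h3

theorem Φ_inj : Function.Injective (Φ : F →+* Gm) := RingHom.injective _

theorem mhz_indep (c : List ℕ →₀ F) (hc : ∀ w ∈ c.support, Adm w)
    (h : Lw Φ (fun w => gm (mzc w)) c = 0) : c = 0 := by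
  refine words_indep σF Φ τ aF (fun w => gm (mzc w)) Adm Φ_inj τ_Φ ?_ (fun i w h => h.tail) ?_ ?_ c hc h
  · show gm (mzc []) = 1
    refine Filter.Germ.coe_eq.2 (Filter.Eventually.of_forall fun t => ?_)
    show mzc [] (t : ℂ) = 1
    rw [mzc]
  · intro s w hw
    show τ (gm (mzc (s :: w))) = gm (mzc (s :: w)) - Φ (aF s) * τ (gm (mzc w))
    rw [τ_gm, τ_gm, aF, Φ_frac]
    refine Filter.Germ.coe_eq.2 ?_
    filter_upwards [eventually_gt_atTop 0] with t ht
    show mzc (s :: w) ((t : ℂ) + 1) = mzc (s :: w) t - 1 / ((t : ℂ) - 0) ^ s * mzc w ((t : ℂ) + 1)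
    rw [sub_zero]
    exact mzc_shift hw t (by simpa using ht)
  · intro c v hadm hσ hsum
    refine aF_add c v (fun i hi => ?_) hσ hsum
    obtain ⟨w, hw⟩ := hadm i hi
    exact hw.pos

theorem gm_sum {α : Type} (S : Finset α) (f : α → ℂ → ℂ) : (∑ l ∈ S, gm (f l)) = gm fun z => ∑ l ∈ S, f l z := by
  classical
  induction S using Finset.induction_on with
  | empty => rfl
  | insert l S hl ih =>
    rw [Finset.sum_insert hl, ih]
    refine Filter.Germ.coe_eq.2 (Filter.Eventually.of_forall fun t => ?_)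
    show f l t + ∑ l ∈ S, f l t = ∑ l ∈ insert l S, f l t
    rw [Finset.sum_insert hl]

/-- admissible words -/
abbrev AW : Type := {w : List ℕ // Adm w}

theorem mhz_lin {a b : ℝ} (ha : 0 < a) (hab : a < b) (S : Finset AW) (p : AW → Polynomial ℝ)
    (h : ∀ t ∈ Icc a b, ∑ l ∈ S, (p l).eval t * mhz l.1 t = 0) : ∀ l ∈ S, p l = 0 := by
  classical
  -- continuation
  have han : AnalyticOnNhd ℝ (fun t => ∑ l ∈ S, (p l).eval t * mhz l.1 t) (Ioi 0) := by
    intro t ht
    refine Finset.analyticAt_fun_sum _ fun l _ => ?_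
    have h1 : AnalyticAt ℝ (fun t : ℝ => (p l).eval t) t := by
      have := (AnalyticOnNhd.aeval_polynomial (analyticOnNhd_id (𝕜 := ℝ) (E := ℝ) (s := univ)) (p l)) t (mem_univ t)
      simpa using this
    exact h1.mul (mhz_an l.1 l.2 t ht)
  set m : ℝ := (a + b) / 2 with hm
  have hm0 : m ∈ Ioi (0 : ℝ) := by
    show 0 < m
    rw [hm]
    linarith
  have hfreq : ∃ᶠ t in 𝓝[≠] m, ∑ l ∈ S, (p l).eval t * mhz l.1 t = 0 := by
    refine Filter.Eventually.frequently ?_
    refine eventually_nhdsWithin_of_eventually_nhds ?_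
    have h2 : Icc a b ∈ 𝓝 m := Icc_mem_nhds (by rw [hm]; linarith) (by rw [hm]; linarith)
    filter_upwards [h2] with t ht
    exact h t ht
  have hall := han.eqOn_zero_of_preconnected_of_frequently_eq_zero isPreconnected_Ioi hm0 hfreq
  -- the relation of germs
  set P : AW → Polynomial ℂ := fun l => (p l).map Complex.ofRealHom with hP
  set c : List ℕ →₀ F := ∑ l ∈ S, Finsupp.single l.1 (algebraMap (Polynomial ℂ) F (P l)) with hc
  have hcs : ∀ w ∈ c.support, Adm w := by
    intro w hw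
    have h3 := Finsupp.support_finsetSum hw
    rw [Finset.mem_biUnion] at h3
    obtain ⟨l, -, hl⟩ := h3
    rw [Finset.mem_singleton.1 (Finsupp.support_single_subset hl)]
    exact l.2
  have hL : Lw Φ (fun w => gm (mzc w)) c = 0 := by
    rw [hc, map_sum]
    have h4 : ∀ l : AW, Lw Φ (fun w => gm (mzc w)) (Finsupp.single l.1 (algebraMap (Polynomial ℂ) F (P l))) =
        gm fun z => (P l).eval z * mzc l.1 z := by
      intro l
      rw [Lw_single, Φ_alg]
      rfl
    rw [Finset.sum_congr rfl fun l _ => h4 l]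
    have h5 : (∑ l ∈ S, gm fun z => (P l).eval z * mzc l.1 z) = gm fun z => ∑ l ∈ S, (P l).eval z * mzc l.1 z :=
      gm_sum S fun l z => (P l).eval z * mzc l.1 z
    rw [h5]
    refine Filter.Germ.coe_eq.2 ?_
    filter_upwards [eventually_gt_atTop 0] with t ht
    show ∑ l ∈ S, (P l).eval (t : ℂ) * mzc l.1 (t : ℂ) = 0
    have h6 : ∑ l ∈ S, (p l).eval t * mhz l.1 t = 0 := hall ht
    have h7 : ∀ l : AW, (P l).eval (t : ℂ) * mzc l.1 (t : ℂ) = (((p l).eval t * mhz l.1 t : ℝ) : ℂ) := by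
      intro l
      rw [mzc_ofReal, hP]
      push_cast
      congr 1
      exact Polynomial.eval_map_apply Complex.ofRealHom t
    rw [Finset.sum_congr rfl fun l _ => h7 l, ← Complex.ofReal_sum, h6]
    rfl
  have hc0 := mhz_indep c hcs hL
  intro l hl
  have h8 : c l.1 = algebraMap (Polynomial ℂ) F (P l) := by
    rw [hc, Finsupp.finsetSum_apply, Finset.sum_eq_single l]
    · rw [Finsupp.single_apply, if_pos rfl]
    · intro l' _ hne
      rw [Finsupp.single_apply, if_neg fun h => hne (Subtype.ext h)]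
    · intro h
      exact absurd hl h
  rw [hc0, Finsupp.zero_apply] at h8
  have h9 : P l = 0 := alg_inj (h8.symm.trans (map_zero (algebraMap (Polynomial ℂ) F)).symm)
  exact (Polynomial.map_eq_zero Complex.ofRealHom).1 h9

theorem mhzFam {a b : ℝ} (ha : 0 < a) (hab : a < b) : AlgFam a b (fun l : AW => mhz l.1) where
  an l := (mhz_an l.1 l.2).mono fun t ht => lt_of_lt_of_le ha ht.1
  one := ⟨{⟨[], trivial⟩}, fun _ => 1, fun t _ => by simp [mhz]⟩
  mul l m := by
    classical
    obtain ⟨c, hc, -, h⟩ := product (l.1.length + m.1.length) l.1 m.1 l.2 m.2 le_rfl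
    refine ⟨c.support.subtype Adm, fun x => c x.1, fun t ht => ?_⟩
    rw [h t (lt_of_lt_of_le ha ht.1), Ev_apply]
    exact (Finset.sum_subtype_of_mem (fun w => c w * mhz w t) hc).symm
  ind := mhz_lin ha hab

end Pool.Agent.Y294.LR
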