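import Pool.Agent.Y294.LR.Iter
import Pool.Agent.Y119.UP.Hyp

/-!
# Multiple polylogarithms in one variable
-/

set_option autoImplicit false
set_option linter.unusedSectionVars false

open Filter Topology Set

namespace Pool.Agent.Y294.LR

open Pool.Agent.Y119.UP Pool.Agent.TH818.AP

/-- the coefficients: sums over `n > m_2 > ⋯ > m_k ≥ 1` -/
noncomputable def mc : List ℕ → ℕ → ℝ
  | [], n => if n = 0 then 1 else 0
  | s :: w, n => if n = 0 then 0 else 1 / (n : ℝ) ^ s * ∑ j ∈ Finset.range n, mc w j

/-- the multiple polylogarithm -/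
noncomputable def mpl (w : List ℕ) (x : ℝ) : ℝ := ∑' n : ℕ, mc w n * x ^ n

/-- positive entries -/
def Pos (w : List ℕ) : Prop := ∀ s ∈ w, 1 ≤ s

theorem Pos.tail {s : ℕ} {w : List ℕ} (h : Pos (s :: w)) : Pos w := fun t ht => h t (List.mem_cons_of_mem _ ht)

theorem Pos.head {s : ℕ} {w : List ℕ} (h : Pos (s :: w)) : 1 ≤ s := h s (List.mem_cons_self)

theorem mc_bound (w : List ℕ) : Pos w → ∀ n, |mc w n| ≤ 1 := by
  induction w with
  | nil =>
    intro _ n
    rw [mc]
    split_ifs <;> simp
  | cons s w ih =>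
    intro hw n
    rw [mc]
    split_ifs with hn
    · simp
    · have hn0 : (0 : ℝ) < n := by exact_mod_cast Nat.pos_of_ne_zero hn
      have hn1 : (1 : ℝ) ≤ n := by exact_mod_cast Nat.pos_of_ne_zero hn
      have h1 : |∑ j ∈ Finset.range n, mc w j| ≤ n := by
        refine (Finset.abs_sum_le_sum_abs _ _).trans ?_
        calc ∑ j ∈ Finset.range n, |mc w j| ≤ ∑ j ∈ Finset.range n, (1 : ℝ) :=
              Finset.sum_le_sum fun j _ => ih hw.tail j
          _ = n := by simp
      rw [abs_mul, abs_of_pos (by positivity : (0 : ℝ) < 1 / (n : ℝ) ^ s)]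
      have h2 : 1 / (n : ℝ) ^ s ≤ 1 / n := by
        refine one_div_le_one_div_of_le hn0 ?_
        calc (n : ℝ) = (n : ℝ) ^ 1 := (pow_one _).symm
          _ ≤ (n : ℝ) ^ s := pow_le_pow_right₀ hn1 hw.head
      calc 1 / (n : ℝ) ^ s * |∑ j ∈ Finset.range n, mc w j| ≤ 1 / n * n :=
            mul_le_mul h2 h1 (abs_nonneg _) (by positivity)
        _ = 1 := by field_simp

theorem mpl_an (w : List ℕ) (hw : Pos w) : AnalyticOnNhd ℝ (mpl w) (Ioo (-1) 1) :=
  LiLoc.series_an (mc w) 1 (mc_bound w hw)

theorem mc_summable (w : List ℕ) (hw : Pos w) (x : ℝ) (hx : |x| < 1) : Summable fun n => mc w n * x ^ n := by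
  refine Summable.of_norm_bounded (summable_geometric_of_lt_one (abs_nonneg x) hx) fun n => ?_
  rw [Real.norm_eq_abs, abs_mul, abs_pow]
  exact mul_le_of_le_one_left (pow_nonneg (abs_nonneg _) _) (mc_bound w hw n)

theorem mpl_nil (x : ℝ) : mpl [] x = 1 := by
  rw [mpl, tsum_eq_single 0]
  · simp [mc]
  · intro n hn
    rw [mc, if_neg hn, zero_mul]

theorem mpl_shift (w : List ℕ) (h0 : mc w 0 = 0) (hw : Pos w) (x : ℝ) (hx : |x| < 1) :
    mpl w x = ∑' n : ℕ, mc w (n + 1) * x ^ (n + 1) := by
  rw [mpl, (mc_summable w hw x hx).tsum_eq_zero_add, h0, zero_mul, zero_add]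

/-- the derivative, general form -/
theorem mpl_deriv0 (s : ℕ) (w : List ℕ) (hw : Pos (s :: w)) (y : ℝ) (hy : |y| < 1) :
    HasDerivAt (mpl (s :: w)) (∑' n : ℕ, ((n : ℝ) + 1) * mc (s :: w) (n + 1) * y ^ n) y := by
  obtain ⟨r, hr1, hr2⟩ := exists_between hy
  have hr0 : 0 < r := lt_of_le_of_lt (abs_nonneg y) hr1
  have hs : Summable fun n : ℕ => |((n : ℝ) + 1) * mc (s :: w) (n + 1)| * r ^ n := by
    have h1 : Summable fun n : ℕ => ((n : ℝ) ^ 1 * r ^ n + r ^ n) :=
      (summable_pow_mul_geometric_of_norm_lt_one 1 (by rw [Real.norm_of_nonneg hr0.le]; exact hr2)).add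
        (summable_geometric_of_lt_one hr0.le hr2)
    refine Summable.of_nonneg_of_le (fun n => by positivity) (fun n => ?_) h1
    rw [abs_mul, abs_of_nonneg (by positivity : (0 : ℝ) ≤ (n : ℝ) + 1), pow_one]
    have h2 := mc_bound (s :: w) hw (n + 1)
    have h3 : 0 ≤ r ^ n := by positivity
    have h4 : (0 : ℝ) ≤ (n : ℝ) + 1 := by positivity
    nlinarith [mul_le_mul_of_nonneg_left h2 h4, mul_nonneg h4 h3]
  have h2 := LiLoc.hasDeriv_series (fun n : ℕ => ((n : ℝ) + 1) * mc (s :: w) (n + 1)) hr0 hs hr1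
  refine h2.congr_of_eventuallyEq ?_
  have hev : ∀ᶠ z in 𝓝 y, |z| < 1 := (continuous_abs.isOpen_preimage _ isOpen_Iio).mem_nhds hy
  filter_upwards [hev] with z hz
  rw [mpl_shift (s :: w) (by rw [mc, if_pos rfl]) hw z hz]
  refine tsum_congr fun n => ?_
  have h5 : (n : ℝ) + 1 ≠ 0 := by positivity
  field_simp

theorem mpl_deriv_succ (s : ℕ) (w : List ℕ) (hs : 1 ≤ s) (hw : Pos w) (y : ℝ) (hy0 : 0 < y) (hy : y < 1) :
    HasDerivAt (mpl ((s + 1) :: w)) (1 / y * mpl (s :: w) y) y := by
  have hya : |y| < 1 := by rw [abs_of_pos hy0]; exact hy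
  have hp : ∀ t, 1 ≤ t → Pos (t :: w) := by
    intro t ht u hu
    rcases List.mem_cons.1 hu with rfl | h
    · exact ht
    · exact hw u h
  have h1 := mpl_deriv0 (s + 1) w (hp _ (by omega)) y hya
  refine h1.congr_deriv ?_
  rw [mpl_shift (s :: w) (by rw [mc, if_pos rfl]) (hp s hs) y hya, ← tsum_mul_left]
  refine tsum_congr fun n => ?_
  have h5 : (n : ℝ) + 1 ≠ 0 := by positivity
  rw [mc, mc, if_neg (Nat.succ_ne_zero n), if_neg (Nat.succ_ne_zero n)]
  push_cast
  field_simp
  ring

theorem mpl_deriv_one (w : List ℕ) (hw : Pos w) (y : ℝ) (hy0 : 0 < y) (hy : y < 1) :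
    HasDerivAt (mpl (1 :: w)) (1 / (1 - y) * mpl w y) y := by
  have hya : |y| < 1 := by rw [abs_of_pos hy0]; exact hy
  have hp : Pos (1 :: w) := by
    intro u hu
    rcases List.mem_cons.1 hu with rfl | h
    · exact le_rfl
    · exact hw u h
  have h1 := mpl_deriv0 1 w hp y hya
  refine h1.congr_deriv ?_
  set A : ℕ → ℝ := fun n => ∑ j ∈ Finset.range (n + 1), mc w j with hA
  have hAn : ∀ n : ℕ, ((n : ℝ) + 1) * mc (1 :: w) (n + 1) = A n := by
    intro n
    rw [mc, if_neg (Nat.succ_ne_zero n)]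
    push_cast
    have h5 : (n : ℝ) + 1 ≠ 0 := by positivity
    field_simp
    rfl
  simp only [hAn]
  have hAb : ∀ n, |A n| ≤ (n : ℝ) + 1 := by
    intro n
    refine (Finset.abs_sum_le_sum_abs _ _).trans ?_
    calc ∑ j ∈ Finset.range (n + 1), |mc w j| ≤ ∑ j ∈ Finset.range (n + 1), (1 : ℝ) :=
          Finset.sum_le_sum fun j _ => mc_bound w hw j
      _ = (n : ℝ) + 1 := by simp
  have hAs : Summable fun n : ℕ => A n * y ^ n := by
    have h2 : Summable fun n : ℕ => ((n : ℝ) ^ 1 * y ^ n + y ^ n) :=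
      (summable_pow_mul_geometric_of_norm_lt_one 1 (by rw [Real.norm_eq_abs]; exact hya)).add
        (summable_geometric_of_lt_one hy0.le hy)
    refine Summable.of_norm_bounded h2 fun n => ?_
    rw [Real.norm_eq_abs, abs_mul, abs_of_pos (by positivity : 0 < y ^ n), pow_one]
    have h3 : 0 ≤ y ^ n := by positivity
    nlinarith [mul_le_mul_of_nonneg_right (hAb n) h3]
  have hsum : (∑' n : ℕ, A n * y ^ n) * (1 - y) = mpl w y := by
    have h2 := hAs.tsum_eq_zero_add
    have h3 : (∑' n : ℕ, A n * y ^ n) * y = ∑' n : ℕ, A n * y ^ (n + 1) := by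
      rw [← tsum_mul_right]
      exact tsum_congr fun n => by ring
    have hAs1 : Summable fun n : ℕ => A (n + 1) * y ^ (n + 1) := (summable_nat_add_iff 1).2 hAs
    have hAs2 : Summable fun n : ℕ => A n * y ^ (n + 1) := by
      have := hAs.mul_right y
      refine this.congr fun n => by ring
    rw [mul_sub, mul_one, h3]
    nth_rewrite 1 [h2]
    rw [add_sub_assoc, ← hAs1.tsum_sub hAs2, mpl, (mc_summable w hw y hya).tsum_eq_zero_add]
    congr 1
    · simp [hA]
    · refine tsum_congr fun n => ?_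
      simp only [hA]
      rw [Finset.sum_range_succ _ (n + 1)]
      ring
  have h1y : (1 - y) ≠ 0 := by linarith
  rw [← hsum]
  field_simp

/-- the letters `dt / t` and `dt / (1 - t)` -/
noncomputable def uu : Fin 2 → ℝ → ℝ := fun i t => if i = 1 then 1 / (1 - t) else 1 / t

/-- raise the first exponent -/
def inc : List ℕ → List ℕ
  | [] => []
  | s :: w => (s + 1) :: w

/-- the exponents of a word -/
def Kw : List (Fin 2) → List ℕ
  | [] => []
  | i :: W => if i = 1 then 1 :: Kw W else inc (Kw W)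

/-- words which end with the second letter -/
def Good : List (Fin 2) → Prop
  | [] => True
  | [i] => i = 1
  | _ :: j :: W => Good (j :: W)

theorem Kw_pos (W : List (Fin 2)) : Pos (Kw W) := by
  induction W with
  | nil => intro s hs; simp [Kw] at hs
  | cons i W ih =>
    rw [Kw]
    split_ifs
    · intro s hs
      rcases List.mem_cons.1 hs with rfl | h
      · exact le_rfl
      · exact ih s h
    · rcases hK : Kw W with _ | ⟨s, w⟩
      · intro s hs
        simp [inc] at hs
      · rw [hK] at ih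
        intro t ht
        rcases List.mem_cons.1 ht with rfl | h
        · omega
        · exact ih t (List.mem_cons_of_mem _ h)

theorem Good.ne {i : Fin 2} {W : List (Fin 2)} (h : Good (i :: W)) : Kw (i :: W) ≠ [] := by
  induction W generalizing i with
  | nil =>
    have h1 : i = 1 := h
    rw [Kw, if_pos h1]
    exact List.cons_ne_nil _ _
  | cons j W ih =>
    have h1 := ih (i := j) h
    rw [Kw]
    split_ifs
    · exact List.cons_ne_nil _ _
    · rcases hK : Kw (j :: W) with _ | ⟨s, w⟩
      · exact absurd hK h1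
      · exact List.cons_ne_nil _ _

open Classical in
/-- a family of iterated integrals which contains the multiple polylogarithms -/
noncomputable def JJ : List (Fin 2) → ℝ → ℝ
  | [] => fun _ => 1
  | i :: W => if Good (i :: W) then mpl (Kw (i :: W)) else fun t => ∫ s in (1 / 2 : ℝ)..t, uu i s * JJ W s

theorem uu_an (i : Fin 2) : AnalyticOnNhd ℝ (uu i) (Ioo 0 1) := by
  intro t ht
  by_cases hi : i = 1
  · have h1 : uu i = fun t => 1 / (1 - t) := by
      funext t
      simp [uu, hi]
    rw [h1]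
    exact analyticAt_const.div (analyticAt_const.sub analyticAt_id) (by
      have := ht.2
      show (1 : ℝ) - t ≠ 0
      linarith)
  · have h1 : uu i = fun t => 1 / t := by
      funext t
      simp [uu, hi]
    rw [h1]
    exact analyticAt_const.div analyticAt_id (by
      have := ht.1
      show t ≠ 0
      linarith)

theorem JJ_deriv (i : Fin 2) (W : List (Fin 2)) (hc : ContinuousOn (JJ W) (Ioo 0 1)) (t : ℝ) (ht : t ∈ Ioo (0 : ℝ) 1) :
    HasDerivAt (JJ (i :: W)) (uu i t * JJ W t) t := by
  by_cases hG : Good (i :: W)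
  · rw [JJ, if_pos hG]
    rcases W with _ | ⟨j, W⟩
    · have hi : i = 1 := hG
      have h1 := mpl_deriv_one [] (fun s hs => by simp at hs) t ht.1 ht.2
      rw [mpl_nil] at h1
      have h2 : Kw [i] = [1] := by rw [Kw, if_pos hi, Kw]
      rw [h2]
      refine h1.congr_deriv ?_
      simp [uu, hi, JJ]
    · have hG' : Good (j :: W) := hG
      have hJ : JJ (j :: W) = mpl (Kw (j :: W)) := by rw [JJ, if_pos hG']
      rw [hJ, Kw]
      by_cases hi : i = 1
      · rw [if_pos hi]
        refine (mpl_deriv_one _ (Kw_pos _) t ht.1 ht.2).congr_deriv ?_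
        simp [uu, hi]
      · rw [if_neg hi]
        rcases hK : Kw (j :: W) with _ | ⟨s, w⟩
        · exact absurd hK hG'.ne
        · have hp := Kw_pos (j :: W)
          rw [hK] at hp
          refine (mpl_deriv_succ s w hp.head hp.tail t ht.1 ht.2).congr_deriv ?_
          simp [uu, hi]
  · rw [JJ, if_neg hG]
    have hcont : ContinuousOn (fun s => uu i s * JJ W s) (Ioo 0 1) :=
      ((uu_an i).continuousOn).mul hc
    have hsub : uIcc (1 / 2 : ℝ) t ⊆ Ioo 0 1 := by
      intro s hs
      rw [mem_uIcc] at hs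
      rcases hs with hs | hs
      · exact ⟨by linarith [hs.1], by linarith [hs.2, ht.2]⟩
      · exact ⟨by linarith [hs.1, ht.1], by linarith [hs.2]⟩
    have hint : IntervalIntegrable (fun s => uu i s * JJ W s) MeasureTheory.volume (1 / 2) t :=
      (hcont.mono hsub).intervalIntegrable
    have hmeas : StronglyMeasurableAtFilter (fun s => uu i s * JJ W s) (𝓝 t) MeasureTheory.volume :=
      hcont.stronglyMeasurableAtFilter isOpen_Ioo t ht
    exact intervalIntegral.integral_hasDerivAt_right hint hmeas (hcont.continuousAt (Ioo_mem_nhds ht.1 ht.2))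

theorem JJ_cont (W : List (Fin 2)) : ContinuousOn (JJ W) (Ioo 0 1) := by
  induction W with
  | nil =>
    rw [JJ]
    exact continuousOn_const
  | cons i W ih => exact fun t ht => (JJ_deriv i W ih t ht).continuousAt.continuousWithinAt

theorem JJ_fam : IterFam 0 1 uu JJ where
  hu := uu_an
  hua i := by
    by_cases hi : i = 1
    · refine ⟨(1 - MvPolynomial.X 0) * MvPolynomial.X 1 - 1, fun h => ?_, fun t ht => ?_⟩
      · have h1 := congrArg (MvPolynomial.eval ![(0 : ℝ), 0]) h
        simp at h1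
      · have h2 : (1 : ℝ) - t ≠ 0 := by linarith [ht.2]
        simp [uu, hi, h2]
    · refine ⟨MvPolynomial.X 0 * MvPolynomial.X 1 - 1, fun h => ?_, fun t ht => ?_⟩
      · have h1 := congrArg (MvPolynomial.eval ![(0 : ℝ), 0]) h
        simp at h1
      · have h2 : t ≠ 0 := by linarith [ht.1]
        simp [uu, hi, h2]
  hprim c hc := by
    classical
    have h1 := uH_prim (k := 0) (r := 2) (Polynomial.X + Polynomial.C 1) ?_ ?_ ![0, -1] ?_ (α := 0) (β := 1) one_pos
      ?_ ?_ (fun x => x.elim (fun i => i.elim0) ![c 0, -c 1]) ?_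
    · funext i
      fin_cases i
      · have := congrFun h1 (Sum.inr 0)
        simpa using this
      · have := congrFun h1 (Sum.inr 1)
        simpa using this
    · exact (Polynomial.irreducible_of_degree_eq_one (Polynomial.degree_X_add_C 1)).squarefree
    · rw [Polynomial.natDegree_X_add_C]
    · intro i j hij
      fin_cases i <;> fin_cases j <;> simp_all
    · intro t ht
      rw [Polynomial.eval_add, Polynomial.eval_X, Polynomial.eval_C]
      linarith [ht.1]
    · intro j t ht
      fin_cases j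
      · show t + 0 ≠ 0
        linarith [ht.1]
      · show t + -1 ≠ 0
        linarith [ht.2]
    · obtain ⟨g, hg1, hg2⟩ := hc
      refine ⟨g, hg1, fun t ht => (hg2 t ht).congr_deriv ?_⟩
      beta_reduce
      rw [Fin.sum_univ_two, Fintype.sum_sum_type, Fin.sum_univ_two]
      have h2 : (1 : ℝ) - t ≠ 0 := by linarith [ht.2]
      have h3 : t + -1 ≠ 0 := by linarith [ht.2]
      have h4 : t ≠ 0 := by linarith [ht.1]
      simp only [uu, uH, Finset.univ_eq_empty, Finset.sum_empty, zero_add, Sum.elim_inr, Matrix.cons_val_zero,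
        Matrix.cons_val_one, add_zero]
      rw [if_neg (by decide), if_pos trivial]
      have h5 : t + -1 = -(1 - t) := by ring
      rw [h5]
      field_simp
  hI0 t _ := by rw [JJ]
  hI i W t ht := JJ_deriv i W (JJ_cont W) t ht

/-- the word of a sequence of exponents -/
def Ew' : List ℕ → List (Fin 2)
  | [] => []
  | s :: w => List.replicate (s - 1) 0 ++ 1 :: Ew' w

theorem Kw_rep (n : ℕ) (W : List (Fin 2)) (s : ℕ) (w : List ℕ) (h : Kw W = s :: w) :
    Kw (List.replicate n 0 ++ W) = (s + n) :: w := by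
  induction n with
  | zero => simpa using h
  | succ n ih =>
    rw [List.replicate_succ, List.cons_append, Kw, if_neg (by decide), ih, inc]
    congr 1

theorem Kw_Ew' (w : List ℕ) (hw : Pos w) : Kw (Ew' w) = w := by
  induction w with
  | nil => rfl
  | cons s w ih =>
    have h1 : Kw (1 :: Ew' w) = 1 :: w := by rw [Kw, if_pos rfl, ih hw.tail]
    rw [Ew', Kw_rep _ _ _ _ h1]
    have := hw.head
    congr 1
    omega

theorem good_Ew' (w : List ℕ) : Good (Ew' w) := by
  induction w with
  | nil => trivial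
  | cons s w ih =>
    have h1 : Good (1 :: Ew' w) := by
      rcases hE : Ew' w with _ | ⟨j, W⟩
      · exact rfl
      · rw [hE] at ih
        exact ih
    rw [Ew']
    generalize s - 1 = n
    induction n with
    | zero => simpa using h1
    | succ n ih2 =>
      rw [List.replicate_succ, List.cons_append]
      rcases hR : List.replicate n (0 : Fin 2) ++ 1 :: Ew' w with _ | ⟨j, W⟩
      · simp at hR
      · rw [hR] at ih2
        exact ih2

theorem JJ_Ew' (w : List ℕ) (hw : Pos w) (x : ℝ) : JJ (Ew' w) x = mpl w x := by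
  have hG := good_Ew' w
  have hK := Kw_Ew' w hw
  rcases hE : Ew' w with _ | ⟨i, W⟩
  · rw [hE] at hK
    rw [← hK, Kw, mpl_nil, JJ]
  · rw [hE] at hG hK
    rw [JJ, if_pos hG, hK]

end Pool.Agent.Y294.LR
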